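import Mathlib

/-!
The cumulative hierarchy over a set of atoms.
-/

set_option autoImplicit false

namespace Pool.Agent.Helper91.ZFA

/-- codes of sets over the set `A` of atoms -/
inductive PreV (A : Type) : Type 1
  | atom (a : A) : PreV A
  | mk (ι : Type) (f : ι → PreV A) : PreV A

namespace PreV

variable {A : Type}

/-- extensional equality of codes -/
def Eqv : PreV A → PreV A → Prop
  | atom a, atom b => a = b
  | mk _ f, mk _ g => (∀ i, ∃ j, Eqv (f i) (g j)) ∧ (∀ j, ∃ i, Eqv (f i) (g j))
  | _, _ => False

theorem Eqv.rfl' : ∀ x : PreV A, Eqv x x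
  | atom _ => by simp [Eqv]
  | mk _ f => by
      simp only [Eqv]
      exact ⟨fun i => ⟨i, Eqv.rfl' (f i)⟩, fun i => ⟨i, Eqv.rfl' (f i)⟩⟩

theorem Eqv.symm' : ∀ {x y : PreV A}, Eqv x y → Eqv y x
  | atom _, atom _, h => by simp only [Eqv] at h ⊢; exact h.symm
  | mk _ f, mk _ g, h => by
      simp only [Eqv] at h ⊢
      exact ⟨fun j => (h.2 j).imp fun i hi => Eqv.symm' hi,
        fun i => (h.1 i).imp fun j hj => Eqv.symm' hj⟩
  | atom _, mk _ _, h => by simp [Eqv] at h
  | mk _ _, atom _, h => by simp [Eqv] at h

theorem Eqv.trans' : ∀ {x y z : PreV A}, Eqv x y → Eqv y z → Eqv x z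
  | atom _, atom _, atom _, h, h' => by simp only [Eqv] at h h' ⊢; exact h.trans h'
  | mk _ f, mk _ g, mk _ k, h, h' => by
      simp only [Eqv] at h h' ⊢
      constructor
      · intro i
        obtain ⟨j, hj⟩ := h.1 i
        obtain ⟨l, hl⟩ := h'.1 j
        exact ⟨l, Eqv.trans' hj hl⟩
      · intro l
        obtain ⟨j, hj⟩ := h'.2 l
        obtain ⟨i, hi⟩ := h.2 j
        exact ⟨i, Eqv.trans' hi hj⟩
  | atom _, mk _ _, _, h, _ => by simp [Eqv] at h
  | mk _ _, atom _, _, h, _ => by simp [Eqv] at h
  | atom _, atom _, mk _ _, _, h => by simp [Eqv] at h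
  | mk _ _, mk _ _, atom _, _, h => by simp [Eqv] at h

instance setoid (A : Type) : Setoid (PreV A) where
  r := Eqv
  iseqv := ⟨Eqv.rfl', Eqv.symm', Eqv.trans'⟩

/-- membership of codes -/
def Mem (x : PreV A) : PreV A → Prop
  | atom _ => False
  | mk _ f => ∃ i, Eqv x (f i)

/-- being an atom -/
def IsAtom : PreV A → Prop
  | atom _ => True
  | mk _ _ => False

theorem isAtom_congr {x y : PreV A} (h : Eqv x y) : IsAtom x ↔ IsAtom y := by
  cases x <;> cases y <;> simp [IsAtom, Eqv] at *

theorem mem_congr {x x' y y' : PreV A} (h : Eqv x x') (h' : Eqv y y') :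
    Mem x y ↔ Mem x' y' := by
  cases y with
  | atom a => cases y' with
    | atom b => simp [Mem]
    | mk ι f => simp [Eqv] at h'
  | mk ι f => cases y' with
    | atom b => simp [Eqv] at h'
    | mk κ g =>
      simp only [Mem]
      simp only [Eqv] at h'
      constructor
      · rintro ⟨i, hi⟩
        obtain ⟨j, hj⟩ := h'.1 i
        exact ⟨j, (h.symm'.trans' hi).trans' hj⟩
      · rintro ⟨j, hj⟩
        obtain ⟨i, hi⟩ := h'.2 j
        exact ⟨i, (h.trans' hj).trans' hi.symm'⟩

/-- the action of permutations of the atoms on codes -/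
def act (π : Equiv.Perm A) : PreV A → PreV A
  | atom a => atom (π a)
  | mk ι f => mk ι fun i => act π (f i)

theorem act_congr (π : Equiv.Perm A) : ∀ {x y : PreV A}, Eqv x y → Eqv (act π x) (act π y)
  | atom _, atom _, h => by simp only [Eqv, act] at h ⊢; rw [h]
  | mk _ f, mk _ g, h => by
      simp only [Eqv, act] at h ⊢
      exact ⟨fun i => (h.1 i).imp fun j hj => act_congr π hj,
        fun j => (h.2 j).imp fun i hi => act_congr π hi⟩
  | atom _, mk _ _, h => by simp [Eqv] at h
  | mk _ _, atom _, h => by simp [Eqv] at h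

theorem act_one : ∀ x : PreV A, act 1 x = x
  | atom a => by simp [act]
  | mk ι f => by
      simp only [act]
      congr 1
      funext i
      exact act_one (f i)

theorem act_mul (π σ : Equiv.Perm A) : ∀ x : PreV A, act (π * σ) x = act π (act σ x)
  | atom a => by simp [act]
  | mk ι f => by
      simp only [act]
      congr 1
      funext i
      exact act_mul π σ (f i)

end PreV

/-- the cumulative hierarchy over the set `A` of atoms -/
def V (A : Type) : Type 1 := Quotient (PreV.setoid A)

namespace V

variable {A : Type}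

/-- membership -/
def Mem (x y : V A) : Prop :=
  Quotient.liftOn₂ x y PreV.Mem fun _ _ _ _ h h' => propext (PreV.mem_congr h h')

/-- being an atom -/
def IsAtom (x : V A) : Prop :=
  Quotient.liftOn x PreV.IsAtom fun _ _ h => propext (PreV.isAtom_congr h)

/-- the atom `a` -/
def atom (a : A) : V A := Quotient.mk _ (PreV.atom a)

/-- the set of the values of a family -/
noncomputable def ofRange {ι : Type} (f : ι → V A) : V A :=
  Quotient.mk _ (PreV.mk ι fun i => (f i).out)

@[simp] theorem isAtom_atom (a : A) : IsAtom (atom a) := trivial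

@[simp] theorem not_isAtom_ofRange {ι : Type} (f : ι → V A) : ¬ IsAtom (ofRange f) := fun h => h

theorem atom_injective : Function.Injective (atom : A → V A) := by
  intro a b h
  have := Quotient.exact h
  exact this

@[simp] theorem not_mem_atom (x : V A) (a : A) : ¬ Mem x (atom a) := by
  induction x using Quotient.inductionOn
  exact fun h => h

theorem mem_ofRange {ι : Type} {f : ι → V A} {x : V A} : Mem x (ofRange f) ↔ ∃ i, f i = x := by
  induction x using Quotient.inductionOn with
  | h x =>
  constructor
  · rintro ⟨i, hi⟩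
    refine ⟨i, ?_⟩
    rw [← Quotient.out_eq (f i)]
    exact (Quotient.sound hi).symm
  · rintro ⟨i, hi⟩
    refine ⟨i, ?_⟩
    have : (Quotient.mk (PreV.setoid A) (f i).out) = Quotient.mk _ x := by
      rw [Quotient.out_eq, hi]
    exact PreV.Eqv.symm' (Quotient.exact this)

theorem exists_atom_or_ofRange (x : V A) :
    (∃ a, x = atom a) ∨ ∃ (ι : Type) (f : ι → V A), x = ofRange f := by
  induction x using Quotient.inductionOn with
  | h x =>
  cases x with
  | atom a => exact Or.inl ⟨a, rfl⟩
  | mk ι f =>
    refine Or.inr ⟨ι, fun i => Quotient.mk _ (f i), ?_⟩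
    apply Quotient.sound
    change PreV.Eqv _ _
    simp only [PreV.Eqv]
    constructor
    · intro i
      exact ⟨i, PreV.Eqv.symm' (Quotient.mk_out (s := PreV.setoid A) (f i))⟩
    · intro i
      exact ⟨i, PreV.Eqv.symm' (Quotient.mk_out (s := PreV.setoid A) (f i))⟩

theorem exists_ofRange {x : V A} (h : ¬ IsAtom x) :
    ∃ (ι : Type) (f : ι → V A), x = ofRange f := by
  rcases exists_atom_or_ofRange x with ⟨a, rfl⟩ | h'
  · exact absurd (isAtom_atom a) h
  · exact h'

theorem exists_atom {x : V A} (h : IsAtom x) : ∃ a, x = atom a := by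
  rcases exists_atom_or_ofRange x with h' | ⟨ι, f, rfl⟩
  · exact h'
  · exact absurd h (not_isAtom_ofRange f)

theorem not_isAtom_of_mem {x y : V A} (h : Mem x y) : ¬ IsAtom y := by
  intro h'
  obtain ⟨a, rfl⟩ := exists_atom h'
  exact not_mem_atom x a h

theorem ext {x y : V A} (hx : ¬ IsAtom x) (hy : ¬ IsAtom y) (h : ∀ z, Mem z x ↔ Mem z y) :
    x = y := by
  induction x using Quotient.inductionOn with
  | h x =>
  induction y using Quotient.inductionOn with
  | h y =>
  cases x with
  | atom a => exact absurd trivial hx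
  | mk ι f =>
    cases y with
    | atom a => exact absurd trivial hy
    | mk κ g =>
      apply Quotient.sound
      change PreV.Eqv _ _
      simp only [PreV.Eqv]
      constructor
      · intro i
        have := (h (Quotient.mk _ (f i))).1 ⟨i, PreV.Eqv.rfl' _⟩
        exact this
      · intro j
        have := (h (Quotient.mk _ (g j))).2 ⟨j, PreV.Eqv.rfl' _⟩
        exact this.imp fun i hi => hi.symm'

theorem acc_mem (x : V A) : Acc Mem x := by
  induction x using Quotient.inductionOn with
  | h x =>
  induction x with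
  | atom a => exact Acc.intro _ fun y hy => absurd hy (not_mem_atom y a)
  | mk ι f ih =>
    refine Acc.intro _ fun y hy => ?_
    induction y using Quotient.inductionOn with
    | h y =>
    obtain ⟨i, hi⟩ := hy
    rw [Quotient.sound hi]
    exact ih i

theorem wf_mem : WellFounded (Mem : V A → V A → Prop) := ⟨acc_mem⟩

/-- the action of permutations of the atoms -/
def act (π : Equiv.Perm A) (x : V A) : V A :=
  Quotient.map (PreV.act π) (fun _ _ h => PreV.act_congr π h) x

@[simp] theorem act_atom (π : Equiv.Perm A) (a : A) : act π (atom a) = atom (π a) := rfl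

@[simp] theorem act_one (x : V A) : act 1 x = x := by
  induction x using Quotient.inductionOn with
  | h x =>
  change Quotient.mk _ (PreV.act 1 x) = _
  rw [PreV.act_one]

theorem act_mul (π σ : Equiv.Perm A) (x : V A) : act (π * σ) x = act π (act σ x) := by
  induction x using Quotient.inductionOn with
  | h x =>
  change Quotient.mk _ (PreV.act (π * σ) x) = Quotient.mk _ (PreV.act π (PreV.act σ x))
  rw [PreV.act_mul]

@[simp] theorem act_inv_act (π : Equiv.Perm A) (x : V A) : act π⁻¹ (act π x) = x := by
  rw [← act_mul]; simp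

@[simp] theorem act_act_inv (π : Equiv.Perm A) (x : V A) : act π (act π⁻¹ x) = x := by
  rw [← act_mul]; simp

theorem act_injective (π : Equiv.Perm A) : Function.Injective (act π) := fun x y h => by
  rw [← act_inv_act π x, h, act_inv_act]

theorem act_ofRange (π : Equiv.Perm A) {ι : Type} (f : ι → V A) :
    act π (ofRange f) = ofRange fun i => act π (f i) := by
  apply Quotient.sound
  change PreV.Eqv _ _
  simp only [PreV.act, PreV.Eqv]
  have key : ∀ i, PreV.Eqv (PreV.act π (f i).out) (act π (f i)).out := by
    intro i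
    have : (Quotient.mk (PreV.setoid A) (PreV.act π (f i).out)) =
        Quotient.mk _ (act π (f i)).out := by
      rw [Quotient.out_eq]
      conv_rhs => rw [← Quotient.out_eq (f i)]
      rfl
    exact Quotient.exact this
  exact ⟨fun i => ⟨i, key i⟩, fun i => ⟨i, key i⟩⟩

@[simp] theorem isAtom_act {π : Equiv.Perm A} {x : V A} : IsAtom (act π x) ↔ IsAtom x := by
  rcases exists_atom_or_ofRange x with ⟨a, rfl⟩ | ⟨ι, f, rfl⟩
  · simp
  · rw [act_ofRange]; simp

@[simp] theorem act_mem_act {π : Equiv.Perm A} {x y : V A} :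
    Mem (act π x) (act π y) ↔ Mem x y := by
  rcases exists_atom_or_ofRange y with ⟨a, rfl⟩ | ⟨ι, f, rfl⟩
  · simp
  · rw [act_ofRange, mem_ofRange, mem_ofRange]
    exact exists_congr fun i => (act_injective π).eq_iff

theorem mem_act {π : Equiv.Perm A} {x y : V A} : Mem x (act π y) ↔ Mem (act π⁻¹ x) y := by
  rw [← act_mem_act (π := π) (x := act π⁻¹ x), act_act_inv]

/-- a set is fixed as soon as its set of elements is mapped into itself by the permutation and by
its inverse -/
theorem act_eq_self {π : Equiv.Perm A} {x : V A} (hx : ¬ IsAtom x)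
    (h : ∀ z, Mem z x → Mem (act π z) x) (h' : ∀ z, Mem z x → Mem (act π⁻¹ z) x) :
    act π x = x := by
  apply ext (by simpa using hx) hx
  intro z
  rw [mem_act]
  constructor
  · intro hz
    have := h _ hz
    rwa [act_act_inv] at this
  · exact h' z

/-- the set with prescribed elements -/
noncomputable def ofSet (S : Set (V A)) [Small.{0} S] : V A :=
  ofRange fun i : Shrink.{0} S => ((equivShrink S).symm i : V A)

@[simp] theorem mem_ofSet {S : Set (V A)} [Small.{0} S] {x : V A} : Mem x (ofSet S) ↔ x ∈ S := by
  rw [ofSet, mem_ofRange]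
  constructor
  · rintro ⟨i, rfl⟩
    exact Subtype.prop _
  · intro h
    exact ⟨equivShrink S ⟨x, h⟩, by simp⟩

@[simp] theorem not_isAtom_ofSet (S : Set (V A)) [Small.{0} S] : ¬ IsAtom (ofSet S) :=
  not_isAtom_ofRange _

/-- the elements of a set form a small set -/
instance small_elems (x : V A) : Small.{0} {z | Mem z x} := by
  rcases exists_atom_or_ofRange x with ⟨a, rfl⟩ | ⟨ι, f, rfl⟩
  · have : {z | Mem z (atom a)} = ∅ := by
      ext z; simp
    rw [this]; infer_instance
  · have : {z | Mem z (ofRange f)} = Set.range f := by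
      ext z; simp [mem_ofRange]
    rw [this]; infer_instance

end V

end Pool.Agent.Helper91.ZFA
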