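import Pool.Agent.Helper91.ZFA.Group

/-!
The equivariant choice of a point of a compact set.
-/

set_option autoImplicit false

namespace Pool.Agent.Helper91.ZFA.Ex

open Pool.Agent.Helper91.ZFA

/-- translates of sets of integers -/
def tr (t : ℤ) (S : Set ℤ) : Set ℤ := {x | x - t ∈ S}

theorem mem_tr {t x : ℤ} {S : Set ℤ} : x ∈ tr t S ↔ x - t ∈ S := Iff.rfl

theorem tr_tr (t u : ℤ) (S : Set ℤ) : tr t (tr u S) = tr (t + u) S := by
  ext x
  simp only [mem_tr]
  rw [show x - t - u = x - (t + u) by ring]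

@[simp] theorem tr_zero (S : Set ℤ) : tr 0 S = S := by
  ext x; simp [mem_tr]

/-- sets of integers up to translation -/
def trSetoid : Setoid (Set ℤ) where
  r S T := ∃ t, T = tr t S
  iseqv := ⟨fun S => ⟨0, by simp⟩, fun {S T} ⟨t, ht⟩ => ⟨-t, by rw [ht, tr_tr]; simp⟩,
    fun {S T U} ⟨t, ht⟩ ⟨u, hu⟩ => ⟨u + t, by rw [hu, ht, tr_tr]⟩⟩

/-- a representative up to translation -/
noncomputable def rep (S : Set ℤ) : Set ℤ := (Quotient.mk trSetoid S).out

theorem exists_sh (S : Set ℤ) : ∃ t, S = tr t (rep S) := by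
  have : trSetoid.r (rep S) S := Quotient.exact (Quotient.out_eq (Quotient.mk trSetoid S))
  exact this

/-- the shift from the representative -/
noncomputable def sh (S : Set ℤ) : ℤ := Classical.choose (exists_sh S)

theorem sh_spec (S : Set ℤ) : S = tr (sh S) (rep S) := Classical.choose_spec (exists_sh S)

theorem rep_tr (t : ℤ) (S : Set ℤ) : rep (tr t S) = rep S := by
  unfold rep
  congr 1
  apply Quotient.sound
  change trSetoid.r _ _
  exact ⟨-t, by rw [tr_tr]; simp⟩

open Classical in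
/-- an element of a set of integers -/
noncomputable def base (S : Set ℤ) : ℤ := if h : S.Nonempty then h.choose else 0

/-- the choice function on sets of integers -/
noncomputable def ch (S : Set ℤ) : ℤ := base (rep S) + sh S

theorem ch_mem {S : Set ℤ} (h : S.Nonempty) : ch S ∈ S := by
  have h1 : (rep S).Nonempty := by
    obtain ⟨x, hx⟩ := h
    rw [sh_spec S] at hx
    exact ⟨_, hx⟩
  unfold ch base
  rw [dif_pos h1]
  have h2 := h1.choose_spec
  have h3 : ∀ y, y ∈ S ↔ y - sh S ∈ rep S := by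
    intro y
    conv_lhs => rw [sh_spec S]
    exact mem_tr
  rw [h3]
  simpa using h2

/-- no non-trivial translation preserves the set -/
def TS (S : Set ℤ) : Prop := ∀ t, tr t S = S → t = 0

theorem ch_tr {S : Set ℤ} (h : TS S) (t : ℤ) : ch (tr t S) = ch S + t := by
  have h1 : rep (tr t S) = rep S := rep_tr t S
  have h2 : sh (tr t S) = sh S + t := by
    have h3 := sh_spec (tr t S)
    rw [h1] at h3
    have h4 := sh_spec S
    have h5 : tr (-sh S) S = rep S :=
      calc tr (-sh S) S = tr (-sh S) (tr (sh S) (rep S)) := congrArg _ h4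
        _ = rep S := by rw [tr_tr]; simp
    have h6 : tr (sh (tr t S) + -sh S - t) S = S := by
      have e1 : tr (-t) (tr t S) = tr (-t) (tr (sh (tr t S)) (rep S)) := congrArg _ h3
      have e2 : tr (-t) (tr t S) = S := by rw [tr_tr]; simp
      rw [e2, tr_tr, ← h5, tr_tr] at e1
      rw [show sh (tr t S) + -sh S - t = -t + sh (tr t S) + -sh S by ring]
      exact e1.symm
    have := h _ h6
    omega
  unfold ch
  rw [h2, h1]
  ring

/-- sequential form of the compactness in the permutation model -/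
def SC (K : Set Pt) : Prop :=
  ∀ W : ℕ → Set Pt, Monotone W → (∀ j, Op rel (W j)) →
    (∃ E : Finset Pt, ∀ π ∈ G, (∀ a ∈ E, π a = a) → ∀ j, ∀ a ∈ W j, π a ∈ W j) →
    (∀ a ∈ K, ∃ j, a ∈ W j) → ∃ j, K ⊆ W j

/-- the possible values of the `k`-th coordinate -/
def fib (K : Set Pt) (n : ℕ) (a : ℕ → ℤ) (k : ℕ) : Set ℤ :=
  {x | ∃ z, (n, z) ∈ K ∧ (∀ i < k, z i = a i) ∧ z k = x}

theorem inv_mem_of_fix {E : Finset Pt} {π : Equiv.Perm Pt} (h : ∀ a ∈ E, π a = a) :
    ∀ a ∈ E, π⁻¹ a = a := fun a ha => by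
  rw [Equiv.Perm.inv_eq_iff_eq, h a ha]

theorem ts_fib {K : Set Pt} (hK : SC K) {n : ℕ} {a : ℕ → ℤ} {k : ℕ}
    (hne : (fib K n a k).Nonempty) : TS (fib K n a k) := by
  intro t ht
  by_contra ht0
  obtain ⟨x, y, hyK, hya, hyx⟩ := hne
  set S := fib K n a k with hS
  have hx : x ∈ S := ⟨y, hyK, hya, hyx⟩
  -- all translates of x by multiples of t are in S
  have hmul : ∀ s : ℤ, x + t * s ∈ S := by
    have h1 : ∀ u, u ∈ S → u + t ∈ S := by
      intro u hu
      rw [← ht, mem_tr]
      simpa using hu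
    have h2 : ∀ u, u ∈ S → u - t ∈ S := by
      intro u hu
      rw [← ht, mem_tr] at hu
      exact hu
    intro s
    induction s using Int.induction_on with
    | zero => simpa using hx
    | succ i ih =>
      have := h1 _ ih
      rw [show x + t * (i + 1 : ℤ) = x + t * i + t by ring]
      exact this
    | pred i ih =>
      have := h2 _ ih
      rw [show x + t * (-i - 1 : ℤ) = x + t * -i - t by ring]
      exact this
  set q : ℤ := 2 * |t| + 1 with hq
  have hqpos : 0 < q := by positivity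
  have hne0 : ∀ u : ℤ, q * u + t ≠ 0 := by
    intro u hu
    have h1 : q ∣ t := by
      have : t = q * (-u) := by linarith
      exact ⟨-u, this⟩
    have h2 := Int.le_of_dvd (abs_pos.2 ht0) ((dvd_abs _ _).2 h1)
    have := abs_nonneg t
    omega
  let W : ℕ → Set Pt := fun j =>
    {b | ¬ (b.1 = n ∧ (∀ i < k, b.2 i = a i) ∧ (2 : ℤ) ^ j ∣ q * (b.2 k - x) + t)}
  have hmono : Monotone W := by
    intro j j' hjj b hb hb'
    exact hb ⟨hb'.1, hb'.2.1, (pow_dvd_pow _ hjj).trans hb'.2.2⟩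
  have hop : ∀ j, Op rel (W j) := by
    intro j b hb
    by_cases h1 : b.1 = n
    · by_cases h2 : ∀ i < k, b.2 i = a i
      · have h3 : ¬ (2 : ℤ) ^ j ∣ q * (b.2 k - x) + t := fun h3 => hb ⟨h1, h2, h3⟩
        refine ⟨max j (k + 1), fun c hc hc' => h3 ?_⟩
        have h4 := hc.2 k (lt_of_lt_of_le (Nat.lt_succ_self k) (le_max_right _ _))
        have h5 := (pow_dvd_pow (2 : ℤ) (le_max_left j (k + 1))).trans h4
        have h6 := dvd_add (Dvd.dvd.mul_left h5 q) hc'.2.2
        exact dvd_of_eq' h6 (by ring)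
      · push Not at h2
        obtain ⟨i, hi, hne⟩ := h2
        obtain ⟨m, hm⟩ := exists_not_dvd (sub_ne_zero.2 hne)
        refine ⟨max m (i + 1), fun c hc hc' => hm ?_⟩
        have h4 := hc.2 i (lt_of_lt_of_le (Nat.lt_succ_self i) (le_max_right _ _))
        rw [hc'.2.1 i hi] at h4
        exact (pow_dvd_pow (2 : ℤ) (le_max_left m (i + 1))).trans h4
    · exact ⟨0, fun c hc hc' => h1 (hc.1.trans hc'.1)⟩
  have hsupp : ∀ π ∈ G, (∀ b ∈ ({(n, y)} : Finset Pt), π b = b) →
      ∀ j, ∀ b ∈ W j, π b ∈ W j := by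
    intro π hπ hf j b hb hb'
    apply hb
    have hfy : π (n, y) = (n, y) := hf _ (by simp)
    have h1 : b.1 = n := by rw [← hπ.1 b]; exact hb'.1
    have h2 : ∀ i < k, b.2 i = y i := by
      have := (prefix_iff hπ (a := b) (b := (n, y)) (k := k) h1).1 (fun i hi => by
        rw [hfy, hb'.2.1 i hi, ← hya i hi])
      exact this
    have h3 := exact_diff hπ (a := b) (b := (n, y)) (k := k) h1 h2
    rw [hfy] at h3
    have h4 : (π b).2 k = b.2 k := by
      simp only at h3
      linarith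
    refine ⟨h1, fun i hi => by rw [h2 i hi, hya i hi], ?_⟩
    rw [← h4]; exact hb'.2.2
  have hcov : ∀ b ∈ K, ∃ j, b ∈ W j := by
    intro b _
    obtain ⟨j, hj⟩ := exists_not_dvd (hne0 (b.2 k - x))
    exact ⟨j, fun h => hj h.2.2⟩
  obtain ⟨j, hj⟩ := hK W hmono hop ⟨_, hsupp⟩ hcov
  have hcop : IsCoprime q ((2 : ℤ) ^ j) := by
    apply IsCoprime.pow_right
    exact ⟨1, -|t|, by rw [hq]; ring⟩
  obtain ⟨u, v, huv⟩ := hcop
  obtain ⟨z, hzK, hza, hzk⟩ := hmul (-u)
  apply hj hzK
  refine ⟨rfl, hza, ?_⟩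
  change (2 : ℤ) ^ j ∣ q * (z k - x) + t
  rw [hzk]
  have : q * (x + t * -u - x) + t = 2 ^ j * (t * v) := by
    have : t * (1 - u * q) = t * (v * 2 ^ j) := by rw [← huv]; ring
    linarith
  rw [this]
  exact dvd_mul_right _ _

/-- the successively chosen coordinates -/
noncomputable def sel (K : Set Pt) (n : ℕ) : ℕ → ℤ
  | k => ch {x | ∃ z, (n, z) ∈ K ∧ (∀ i, ∀ _hi : i < k, z i = sel K n i) ∧ z k = x}
termination_by k => k
decreasing_by exact _hi

theorem sel_eq (K : Set Pt) (n k : ℕ) : sel K n k = ch (fib K n (sel K n) k) := by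
  rw [sel]; rfl

theorem fib_nonempty {K : Set Pt} {n : ℕ} (hne : ∃ z, (n, z) ∈ K) (k : ℕ) :
    (fib K n (sel K n) k).Nonempty := by
  have key : ∀ k, ∃ z, (n, z) ∈ K ∧ ∀ i < k, z i = sel K n i := by
    intro k
    induction k with
    | zero =>
      obtain ⟨z, hz⟩ := hne
      exact ⟨z, hz, fun i hi => absurd hi (Nat.not_lt_zero i)⟩
    | succ k ih =>
      obtain ⟨z, hz, hz'⟩ := ih
      have h1 : (fib K n (sel K n) k).Nonempty := ⟨z k, z, hz, hz', rfl⟩
      obtain ⟨w, hw, hw', hw''⟩ := ch_mem h1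
      refine ⟨w, hw, fun i hi => ?_⟩
      rcases Nat.lt_succ_iff_lt_or_eq.1 hi with h | rfl
      · exact hw' i h
      · rw [hw'', sel_eq]
  obtain ⟨z, hz, hz'⟩ := key k
  exact ⟨z k, z, hz, hz', rfl⟩

theorem sel_mem {K : Set Pt} (hK : SC K) {n : ℕ} (hne : ∃ z, (n, z) ∈ K) :
    (n, sel K n) ∈ K := by
  by_contra hcon
  let W : ℕ → Set Pt := fun j => {b | ¬ (b.1 = n ∧ ∀ i < j, b.2 i = sel K n i)}
  have hmono : Monotone W := by
    intro j j' hjj b hb hb'
    exact hb ⟨hb'.1, fun i hi => hb'.2 i (lt_of_lt_of_le hi hjj)⟩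
  have hop : ∀ j, Op rel (W j) := by
    intro j b hb
    by_cases h1 : b.1 = n
    · have h2 : ¬ ∀ i < j, b.2 i = sel K n i := fun h2 => hb ⟨h1, h2⟩
      push Not at h2
      obtain ⟨i, hi, hne⟩ := h2
      obtain ⟨m, hm⟩ := exists_not_dvd (sub_ne_zero.2 hne)
      refine ⟨max m (i + 1), fun c hc hc' => hm ?_⟩
      have h4 := hc.2 i (lt_of_lt_of_le (Nat.lt_succ_self i) (le_max_right _ _))
      rw [hc'.2 i hi] at h4
      exact (pow_dvd_pow (2 : ℤ) (le_max_left m (i + 1))).trans h4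
    · exact ⟨0, fun c hc hc' => h1 (hc.1.trans hc'.1)⟩
  have hsupp : ∀ π ∈ G, (∀ b ∈ ({(n, sel K n)} : Finset Pt), π b = b) →
      ∀ j, ∀ b ∈ W j, π b ∈ W j := by
    intro π hπ hf j b hb hb'
    apply hb
    have hfy : π (n, sel K n) = (n, sel K n) := hf _ (by simp)
    have h1 : b.1 = n := by rw [← hπ.1 b]; exact hb'.1
    refine ⟨h1, ?_⟩
    have := (prefix_iff hπ (a := b) (b := (n, sel K n)) (k := j) h1).1 (fun i hi => by
        rw [hfy, hb'.2 i hi])
    exact this
  have hcov : ∀ b ∈ K, ∃ j, b ∈ W j := by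
    intro b hb
    by_contra hcon'
    push Not at hcon'
    have h1 : ∀ j, b.1 = n ∧ ∀ i < j, b.2 i = sel K n i := fun j => by
      have := hcon' j
      simpa [W] using this
    have h2 : b = (n, sel K n) := by
      apply Prod.ext (h1 0).1
      funext i
      exact (h1 (i + 1)).2 i (Nat.lt_succ_self i)
    rw [h2] at hb
    exact hcon hb
  obtain ⟨j, hj⟩ := hK W hmono hop ⟨_, hsupp⟩ hcov
  obtain ⟨x, z, hz, hz', -⟩ := fib_nonempty hne j
  exact hj hz ⟨rfl, hz'⟩

theorem sel_image {K : Set Pt} (hK : SC K) {n : ℕ} (hne : ∃ z, (n, z) ∈ K)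
    {π : Equiv.Perm Pt} (hπ : π ∈ G) : (n, sel (π '' K) n) = π (n, sel K n) := by
  have h0 : (π (n, sel K n)).1 = n := hπ.1 _
  apply Prod.ext h0.symm
  funext k
  change sel (π '' K) n k = (π (n, sel K n)).2 k
  induction k using Nat.strong_induction_on with
  | _ k ih =>
    have h1 : fib (π '' K) n (sel (π '' K) n) k =
        tr ((π (n, sel K n)).2 k - sel K n k) (fib K n (sel K n) k) := by
      ext x
      rw [mem_tr]
      constructor
      · rintro ⟨z', ⟨c, hc, hcz⟩, hz', hz'k⟩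
        have hc1 : c.1 = n := by
          have := hπ.1 c
          rw [hcz] at this
          exact this.symm
        have hpre : ∀ i < k, c.2 i = sel K n i := by
          have := (prefix_iff hπ (a := c) (b := (n, sel K n)) (k := k) hc1).1 (fun i hi => by
            rw [hcz, ← ih i hi, ← hz' i hi])
          exact this
        have hd := exact_diff hπ (a := c) (b := (n, sel K n)) (k := k) hc1 hpre
        refine ⟨c.2, ?_, hpre, ?_⟩
        · rw [← hc1]; exact hc
        · rw [hcz] at hd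
          simp only at hd
          linarith
      · rintro ⟨z, hz, hz', hzk⟩
        have hd := exact_diff hπ (a := (n, z)) (b := (n, sel K n)) (k := k) rfl hz'
        have hp := pres_prefix hπ (a := (n, z)) (b := (n, sel K n)) (k := k) rfl hz'
        refine ⟨(π (n, z)).2, ⟨(n, z), hz, ?_⟩, ?_, ?_⟩
        · exact Prod.ext (hπ.1 _) rfl
        · intro i hi
          rw [hp i hi, ih i hi]
        · simp only at hd
          linarith
    rw [sel_eq, h1, ch_tr (ts_fib hK (fib_nonempty hne k)), ← sel_eq]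
    ring

open Classical in
/-- the chosen point of `K` -/
noncomputable def pick (K : Set Pt) : Pt :=
  if h : ∃ n, ∃ z, (n, z) ∈ K then (Nat.find h, sel K (Nat.find h)) else (0, 0)

theorem pick_mem {K : Set Pt} (hK : SC K) (hne : K.Nonempty) : pick K ∈ K := by
  classical
  have h : ∃ n, ∃ z, (n, z) ∈ K := by
    obtain ⟨a, ha⟩ := hne
    exact ⟨a.1, a.2, ha⟩
  unfold pick
  rw [dif_pos h]
  exact sel_mem hK (Nat.find_spec h)

theorem pick_image {K : Set Pt} (hK : SC K) (hne : K.Nonempty) {π : Equiv.Perm Pt}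
    (hπ : π ∈ G) : pick (π '' K) = π (pick K) := by
  classical
  have h : ∃ n, ∃ z, (n, z) ∈ K := by
    obtain ⟨a, ha⟩ := hne
    exact ⟨a.1, a.2, ha⟩
  have hiff : ∀ n, (∃ z, (n, z) ∈ π '' K) ↔ ∃ z, (n, z) ∈ K := by
    intro n
    constructor
    · rintro ⟨z, c, hc, hcz⟩
      refine ⟨c.2, ?_⟩
      have : c.1 = n := by
        have := hπ.1 c
        rw [hcz] at this
        exact this.symm
      rw [← this]; exact hc
    · rintro ⟨z, hz⟩
      exact ⟨(π (n, z)).2, (n, z), hz, Prod.ext (hπ.1 _) rfl⟩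
  have h' : ∃ n, ∃ z, (n, z) ∈ π '' K := h.imp fun n hn => (hiff n).2 hn
  unfold pick
  rw [dif_pos h, dif_pos h']
  have : Nat.find h' = Nat.find h := by
    congr 1
    funext n
    exact propext (hiff n)
  rw [this]
  exact sel_image hK (Nat.find_spec h) hπ

end Pool.Agent.Helper91.ZFA.Ex
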