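import Mathlib

/-!
Well-founded models of ZFA (set theory with atoms, without choice) and topology inside them.
-/

set_option autoImplicit false

namespace Pool.Agent.Helper91.ZFA

/-- First-order formulas in membership and the predicate of being an atom; variables are indexed by
natural numbers. -/
inductive Fml : Type
  /-- the `i`-th variable is an element of the `j`-th -/
  | mem (i j : ℕ) : Fml
  /-- the `i`-th variable equals the `j`-th -/
  | eq (i j : ℕ) : Fml
  /-- the `i`-th variable is an atom -/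
  | atom (i : ℕ) : Fml
  /-- negation -/
  | neg (φ : Fml) : Fml
  /-- conjunction -/
  | and (φ ψ : Fml) : Fml
  /-- universal quantification over the `i`-th variable -/
  | all (i : ℕ) (φ : Fml) : Fml

/-- Satisfaction of a formula in a structure under an assignment `v` of the variables. -/
def Sat {M : Type 1} (mem : M → M → Prop) (atom : M → Prop) : Fml → (ℕ → M) → Prop
  | .mem i j, v => mem (v i) (v j)
  | .eq i j, v => v i = v j
  | .atom i, v => atom (v i)
  | .neg φ, v => ¬ Sat mem atom φ v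
  | .and φ ψ, v => Sat mem atom φ v ∧ Sat mem atom ψ v
  | .all i φ, v => ∀ x : M, Sat mem atom φ (Function.update v i x)

/-- A well-founded model of ZFA: a class `M` with a membership relation and a predicate singling
out the atoms, which satisfies the axioms of ZFA. -/
structure ZFAModel where
  /-- the universe of the model -/
  M : Type 1
  /-- membership -/
  mem : M → M → Prop
  /-- being an atom -/
  atom : M → Prop
  /-- atoms have no elements -/
  atom_empty : ∀ a, atom a → ∀ x, ¬ mem x a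
  /-- extensionality for sets (non-atoms) -/
  ext : ∀ x y, ¬ atom x → ¬ atom y → (∀ z, mem z x ↔ mem z y) → x = y
  /-- there is a set of all atoms -/
  atoms_set : ∃ s, ¬ atom s ∧ ∀ x, mem x s ↔ atom x
  /-- pairing -/
  pairing : ∀ x y, ∃ s, ¬ atom s ∧ ∀ z, mem z s ↔ (z = x ∨ z = y)
  /-- union -/
  union : ∀ x, ∃ s, ¬ atom s ∧ ∀ z, mem z s ↔ ∃ y, mem y x ∧ mem z y
  /-- power set -/
  power : ∀ x, ∃ s, ¬ atom s ∧ ∀ y, mem y s ↔ (¬ atom y ∧ ∀ z, mem z y → mem z x)
  /-- infinity -/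
  infinity : ∃ s, (∃ e, mem e s ∧ ¬ atom e ∧ ∀ z, ¬ mem z e) ∧
    ∀ x, mem x s → ∃ y, mem y s ∧ ¬ atom y ∧ ∀ z, mem z y ↔ (mem z x ∨ z = x)
  /-- foundation -/
  foundation : ∀ x, (∃ z, mem z x) → ∃ z, mem z x ∧ ∀ w, mem w x → ¬ mem w z
  /-- the separation scheme -/
  separation : ∀ (φ : Fml) (v : ℕ → M) (x : M), ∃ s, ¬ atom s ∧
    ∀ z, mem z s ↔ (mem z x ∧ Sat mem atom φ (Function.update v 0 z))
  /-- the replacement scheme -/
  replacement : ∀ (φ : Fml) (v : ℕ → M) (x : M),
    (∀ a, mem a x → ∃! b, Sat mem atom φ (Function.update (Function.update v 0 a) 1 b)) →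
    ∃ s, ¬ atom s ∧ ∀ b, mem b s ↔
      ∃ a, mem a x ∧ Sat mem atom φ (Function.update (Function.update v 0 a) 1 b)
  /-- the model is well founded -/
  wf : WellFounded mem

namespace ZFAModel

variable (N : ZFAModel)

/-- `s` is the set `{x, y}` -/
def IsUPair (s x y : N.M) : Prop := ¬ N.atom s ∧ ∀ z, N.mem z s ↔ (z = x ∨ z = y)

/-- `p` is the ordered pair `(x, y) = {{x}, {x, y}}` -/
def IsOPair (p x y : N.M) : Prop :=
  ∃ s t, N.IsUPair s x x ∧ N.IsUPair t x y ∧ N.IsUPair p s t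

/-- `x` is the natural number `n` of the model: `0` is the empty set and `n + 1 = n ∪ {n}` -/
def IsNat : ℕ → N.M → Prop
  | 0, x => ¬ N.atom x ∧ ∀ z, ¬ N.mem z x
  | n + 1, x => ∃ y, IsNat n y ∧ ¬ N.atom x ∧ ∀ z, N.mem z x ↔ (N.mem z y ∨ z = y)

/-- the sequence `f` belongs to the model: the set of all pairs `(n, f n)` is an element -/
def IsSeq (f : ℕ → N.M) : Prop :=
  ∃ g, ∀ p, N.mem p g ↔ ∃ (n : ℕ) (m : N.M), N.IsNat n m ∧ N.IsOPair p m (f n)

/-- `x` is a set with finitely many elements -/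
def IsFin (x : N.M) : Prop := ¬ N.atom x ∧ {z | N.mem z x}.Finite

/-- `x` is a set which is the union of a countable family of finite sets -/
def IsCuf (x : N.M) : Prop :=
  ¬ N.atom x ∧ ∃ f : ℕ → N.M, N.IsSeq f ∧ (∀ n, N.IsFin (f n)) ∧
    ∀ z, N.mem z x ↔ ∃ n, N.mem z (f n)

/-- `x` is a set and a subset of `y` -/
def IsSub (x y : N.M) : Prop := ¬ N.atom x ∧ ∀ z, N.mem z x → N.mem z y

/-- `x` has an element -/
def Inhab (x : N.M) : Prop := ∃ z, N.mem z x

/-- `τ` is a topology on the set `X` -/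
def IsTopology (X τ : N.M) : Prop :=
  ¬ N.atom X ∧ ¬ N.atom τ ∧ (∀ U, N.mem U τ → N.IsSub U X) ∧ N.mem X τ ∧
  (∀ U, ¬ N.atom U → (∀ z, ¬ N.mem z U) → N.mem U τ) ∧
  (∀ U W, N.mem U τ → N.mem W τ → ∀ S, ¬ N.atom S →
    (∀ z, N.mem z S ↔ (N.mem z U ∧ N.mem z W)) → N.mem S τ) ∧
  (∀ F, N.IsSub F τ → ∀ S, ¬ N.atom S →
    (∀ z, N.mem z S ↔ ∃ U, N.mem U F ∧ N.mem z U) → N.mem S τ)

/-- `F` is a closed subset of the space `(X, τ)` -/
def IsClosedIn (X τ F : N.M) : Prop :=
  N.IsSub F X ∧ ∃ U, N.mem U τ ∧ ∀ z, N.mem z U ↔ (N.mem z X ∧ ¬ N.mem z F)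

/-- `K` is a compact subset of the space `(X, τ)`: each open cover has a finite subcover -/
def IsCompactIn (X τ K : N.M) : Prop :=
  N.IsSub K X ∧ ∀ C, N.IsSub C τ → (∀ z, N.mem z K → ∃ U, N.mem U C ∧ N.mem z U) →
    ∃ D, N.IsSub D C ∧ N.IsFin D ∧ ∀ z, N.mem z K → ∃ U, N.mem U D ∧ N.mem z U

/-- the model contains a choice function for the family of all `F` with `P F` -/
def HasChoice (P : N.M → Prop) : Prop :=
  ∃ g, ∀ F, P F → ∃ y, N.mem y F ∧ (∃ p, N.mem p g ∧ N.IsOPair p F y) ∧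
    ∀ y', (∃ p, N.mem p g ∧ N.IsOPair p F y') → y' = y

/-- the space is Loeb: its non-empty closed subsets have a choice function -/
def IsLoeb (X τ : N.M) : Prop := N.HasChoice fun F => N.IsClosedIn X τ F ∧ N.Inhab F

/-- the space is `K`-Loeb: its non-empty compact subsets have a choice function -/
def IsKLoeb (X τ : N.M) : Prop := N.HasChoice fun F => N.IsCompactIn X τ F ∧ N.Inhab F

/-- `B` is a base of the topology `τ` -/
def IsBase (τ B : N.M) : Prop :=
  N.IsSub B τ ∧ ∀ U x, N.mem U τ → N.mem x U → ∃ W, N.mem W B ∧ N.mem x W ∧ N.IsSub W U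

/-- an enumeration of the rational numbers -/
noncomputable def rat (n : ℕ) : ℚ := (Encodable.decode n : Option ℚ).getD 0

/-- the real-valued function `d` on `X × X` belongs to the model: the set of all pairs
`((x, y), n)` with `x, y ∈ X` such that the `n`-th rational is less than `d x y` is an element
(that is, the model has the function which sends `(x, y)` to the Dedekind cut of `d x y`) -/
def IsRealFun (X : N.M) (d : N.M → N.M → ℝ) : Prop :=
  ∃ g, ∀ p, N.mem p g ↔ ∃ (x y q : N.M) (n : ℕ) (m : N.M), N.mem x X ∧ N.mem y X ∧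
    N.IsOPair q x y ∧ N.IsNat n m ∧ N.IsOPair p q m ∧ (rat n : ℝ) < d x y

/-- `d` is a metric of the model on the set `X` -/
def IsMetric (X : N.M) (d : N.M → N.M → ℝ) : Prop :=
  N.IsRealFun X d ∧ (∀ x y, N.mem x X → N.mem y X → (d x y = 0 ↔ x = y)) ∧
  (∀ x y, N.mem x X → N.mem y X → d x y = d y x) ∧
  (∀ x y z, N.mem x X → N.mem y X → N.mem z X → d x z ≤ d x y + d y z)

/-- `τ` is the topology of the metric `d` on `X` -/
def Induces (X τ : N.M) (d : N.M → N.M → ℝ) : Prop :=
  ∀ U, N.mem U τ ↔ (N.IsSub U X ∧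
    ∀ x, N.mem x U → ∃ ε > 0, ∀ y, N.mem y X → d x y < ε → N.mem y U)

/-- the metric `d` on the space `(X, τ)` is Cantor complete: each decreasing sequence of non-empty
closed sets with diameters tending to zero (a sequence that belongs to the model) has a non-empty
intersection -/
def IsCantorComplete (X τ : N.M) (d : N.M → N.M → ℝ) : Prop :=
  ∀ f : ℕ → N.M, N.IsSeq f → (∀ n, N.IsClosedIn X τ (f n) ∧ N.Inhab (f n)) →
    (∀ n, N.IsSub (f (n + 1)) (f n)) →
    (∀ ε > 0, ∃ n, ∀ x y, N.mem x (f n) → N.mem y (f n) → d x y < ε) →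
    ∃ x, ∀ n, N.mem x (f n)

/-- the space is Cantor completely metrizable -/
def IsCantorCompletelyMetrizable (X τ : N.M) : Prop :=
  ∃ d, N.IsMetric X d ∧ N.Induces X τ d ∧ N.IsCantorComplete X τ d

end ZFAModel

end Pool.Agent.Helper91.ZFA
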