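import Pool.Agent.Helper91.ZFA.Choice

/-!
The space of the example inside its permutation model.
-/

set_option autoImplicit false

namespace Pool.Agent.Helper91.ZFA.Ex

open Pool.Agent.Helper91.ZFA NM

/-- the space -/
noncomputable abbrev X0 : NM G := univN G

/-- its topology -/
noncomputable abbrev T0 : NM G := tau unif

theorem act_T0 (π : G) : act π T0 = T0 := by
  apply NM.ext (by simpa using not_atom_tau unif) (not_atom_tau unif)
  have key : ∀ (σ : G) (U : NM G), mem U T0 → mem (act σ U) T0 := by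
    intro σ U hU
    obtain ⟨h1, h2⟩ := (mem_tau unif).1 hU
    refine (mem_tau unif).2 ⟨h1.act σ, ?_⟩
    rw [pts_act]
    exact unif.op_image h2 σ.2
  intro z
  rw [mem_act]
  constructor
  · intro h
    have := key π _ h
    rwa [act_act_inv] at this
  · exact key π⁻¹ z

theorem sc_of_compact {K : NM G} (hK : (permModel G).IsCompactIn X0 T0 K) : SC (pts K) := by
  rintro W hmono hop ⟨E, hE⟩ hcov
  exact compact_seq unif hK W hmono hop E (fun π hf j a ha => hE π.1 π.2 hf j a ha) hcov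

theorem isFin_act {D : NM G} (hD : (permModel G).IsFin D) (π : G) :
    (permModel G).IsFin (act π D) := by
  refine ⟨by simpa using hD.1, ?_⟩
  have : {z | mem z (act π D)} = act π '' {z | mem z D} := by
    ext z
    constructor
    · intro hz
      exact ⟨act π⁻¹ z, mem_act.1 hz, act_act_inv π z⟩
    · rintro ⟨w, hw, rfl⟩
      exact act_mem_act.2 hw
  change Set.Finite {z | mem z (act π D)}
  rw [this]
  exact Set.Finite.image _ hD.2

theorem compact_act {K : NM G} (hK : (permModel G).IsCompactIn X0 T0 K) (π : G) :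
    (permModel G).IsCompactIn X0 T0 (act π K) := by
  refine ⟨IsPts.act (x := K) hK.1 π, fun C hC hcov => ?_⟩
  obtain ⟨D, hD, hDf, hD'⟩ := hK.2 (act π⁻¹ C) ⟨by
      have : ¬ atom C := hC.1
      change ¬ atom (act π⁻¹ C)
      simpa using this, fun z hz => by
      have h1 : mem (act π z) C := by
        have := mem_act.1 hz
        simpa using this
      have h2 : mem (act π z) T0 := hC.2 _ h1
      rw [← act_T0 π] at h2
      exact act_mem_act.1 h2⟩ (by
    intro z hz
    obtain ⟨U, hU, hzU⟩ := hcov (act π z) (act_mem_act.2 hz)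
    refine ⟨act π⁻¹ U, act_mem_act.2 hU, ?_⟩
    change mem z (act π⁻¹ U)
    rw [mem_act]
    simpa using hzU)
  refine ⟨act π D, ⟨by
      have : ¬ atom D := hD.1
      change ¬ atom (act π D)
      simpa using this, fun z hz => ?_⟩, isFin_act hDf π, fun z hz => ?_⟩
  · have h1 := hD.2 _ (mem_act.1 hz)
    exact act_mem_act.1 h1
  · obtain ⟨U, hU, hzU⟩ := hD' (act π⁻¹ z) (mem_act.1 hz)
    refine ⟨act π U, act_mem_act.2 hU, ?_⟩
    exact mem_act.2 hzU

theorem pts_nonempty {K : NM G} (hK : IsPts K) (hne : (permModel G).Inhab K) :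
    (pts K).Nonempty := by
  obtain ⟨z, hz⟩ := hne
  obtain ⟨a, ha, -⟩ := hK.mem_iff.1 hz
  exact ⟨a, ha⟩

theorem kLoeb : (permModel G).IsKLoeb X0 T0 := by
  apply hasChoice_of (P := fun F => (permModel G).IsCompactIn X0 T0 F ∧ (permModel G).Inhab F)
    (small_sub (fun F hF => hF.1.1) (small_subsets X0)) (fun F => atomN (pick (pts F))) _ ∅
  · rintro π - F ⟨hF, hne⟩
    refine ⟨⟨compact_act hF π, ?_⟩, ?_⟩
    · obtain ⟨z, hz⟩ := hne
      exact ⟨act π z, act_mem_act.2 hz⟩
    · rw [pts_act, pick_image (sc_of_compact hF) (pts_nonempty hF.1 hne) π.2]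
      rfl
  · rintro F ⟨hF, hne⟩
    exact pick_mem (sc_of_compact hF) (pts_nonempty hF.1 hne)

theorem not_loeb : ¬ (permModel G).IsLoeb X0 T0 := by
  classical
  rintro ⟨g, hg⟩
  obtain ⟨E, hE⟩ := exists_supp g
  obtain ⟨N, hN⟩ := (E.image Prod.fst).exists_le
  obtain ⟨s, hs, hs'⟩ := exists_of_pts (G := G) {a : Pt | a.1 = N + 1} ∅ (by
    rintro π - a ha
    exact (π.2.1 a).trans ha)
  have hsupp : ∀ π : G, act π s = s := fun π => supp_of_pts (E := ∅) hs (by
    rintro π - a ha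
    rw [hs'] at ha ⊢
    exact (π.2.1 a).trans ha) π (by simp)
  obtain ⟨y, hy, ⟨p, hp, hpy⟩, huniq⟩ := hg s ⟨(isClosedIn_iff unif).2 ⟨hs, by
      rw [hs']
      intro a ha
      exact ⟨0, fun b hb hb' => ha (hb.1.trans hb')⟩⟩, ⟨atomN (N + 1, 0), by
      have : ((N + 1, 0) : Pt) ∈ pts s := by rw [hs']; rfl
      exact this⟩⟩
  obtain ⟨b, hb, rfl⟩ := hs.mem_iff.1 hy
  rw [hs'] at hb
  let π : G := ⟨mv (N + 1) 0 0 0, mv_mem _ _ _ _⟩
  have hfix : ∀ a ∈ E, π.1 a = a := by
    intro a ha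
    apply mv_apply_of_not
    rintro ⟨h, -⟩
    have := hN _ (Finset.mem_image_of_mem Prod.fst ha)
    omega
  have h1 : mem (act π p) g := by
    rw [← hE π hfix]; exact act_mem_act.2 hp
  have h2 := opair_act π hpy
  rw [hsupp π] at h2
  have h3 := huniq (act π (atomN b)) ⟨act π p, h1, h2⟩
  rw [act_atomN] at h3
  have h4 := atomN_injective h3
  have h5 : (π.1 b).2 0 = b.2 0 + 2 ^ 0 := mv_apply_of ⟨hb, fun i hi => absurd hi (by omega)⟩
  rw [h4] at h5
  simp at h5

theorem cantorComplete : (permModel G).IsCantorComplete X0 T0 (dN rel) := by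
  intro f hf hcl hdec hdiam
  obtain ⟨E, hE⟩ := supp_of_isSeq hf
  have h1 : ∀ n, IsPts (f n) ∧ Op rel (pts (f n))ᶜ := fun n => (isClosedIn_iff unif).1 (hcl n).1
  obtain ⟨a, ha⟩ := cantor (fun n => pts (f n)) E
    (fun π hπ hfix n a ha => pts_of_supp (hE n) (π := ⟨π, hπ⟩) hfix ha)
    (fun n => (h1 n).2) (fun n => pts_nonempty (h1 n).1 (hcl n).2)
    (fun n a ha => (hdec n).2 (atomN a) ha) (by
      intro m
      obtain ⟨n, hn⟩ := hdiam ((1 / 2) ^ m) (by positivity)
      refine ⟨n, fun a ha b hb => ?_⟩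
      have := hn (atomN a) (atomN b) ha hb
      rw [dN_atomN, ← unif.rel_iff] at this
      exact this)
  exact ⟨atomN a, fun n => ha n⟩

/-- the basic sets of level `m` that are put in the `m`-th finite set -/
def lvl (m : ℕ) (z : NM G) : Prop := ∃ a : Pt, a.1 ≤ m ∧ IsPts z ∧ pts z = {b | rel m a b}

theorem lvl_act {m : ℕ} {z : NM G} (h : lvl m z) (π : G) : lvl m (act π z) := by
  obtain ⟨a, ha, hz, hz'⟩ := h
  refine ⟨π.1 a, by rw [π.2.1]; exact ha, hz.act π, ?_⟩
  rw [pts_act, hz']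
  ext b
  constructor
  · rintro ⟨c, hc, rfl⟩
    exact unif.inv π.1 π.2 _ _ _ hc
  · intro hb
    refine ⟨π.1⁻¹ b, ?_, by simp⟩
    have := unif.inv π.1⁻¹ (G.inv_mem π.2) _ _ _ hb
    simpa using this

theorem exists_class (m : ℕ) (a : Pt) : ∃ z : NM G, IsPts z ∧ pts z = {b | rel m a b} := by
  apply exists_of_pts _ {a}
  intro π hf b hb
  have h1 := unif.inv π.1 π.2 m a b hb
  rw [hf a (by simp)] at h1
  exact h1

theorem finite_lvl (m : ℕ) : Set.Finite {z : NM G | lvl m z} := by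
  choose z hz hz' using exists_class m
  have hfin : Set.Finite (Set.range fun t : Fin (m + 1) × (Fin m → Fin (2 ^ m)) =>
      z (t.1.1, fun i => if h : i < m then ((t.2 ⟨i, h⟩).1 : ℤ) else 0)) := Set.finite_range _
  refine hfin.subset ?_
  rintro w ⟨a, ha, hw, hw'⟩
  refine ⟨(⟨a.1, Nat.lt_succ_of_le ha⟩, fun i => ⟨(a.2 i % 2 ^ m).toNat, ?_⟩), ?_⟩
  · have h1 := Int.emod_lt_of_pos (a.2 i) (show (0 : ℤ) < 2 ^ m by positivity)
    have h2 := Int.emod_nonneg (a.2 i) (show (2 : ℤ) ^ m ≠ 0 by positivity)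
    have h3 : ((a.2 i % 2 ^ m).toNat : ℤ) < ((2 ^ m : ℕ) : ℤ) := by
      rw [Int.toNat_of_nonneg h2]
      push_cast
      exact h1
    exact_mod_cast h3
  · apply (hz _).eq hw
    rw [hz', hw']
    have hrel : rel m (a.1, fun i => if h : i < m then (((a.2 i % 2 ^ m).toNat : ℕ) : ℤ) else 0)
        a := by
      refine ⟨rfl, fun i hi => ?_⟩
      have h2 := Int.emod_nonneg (a.2 i) (show (2 : ℤ) ^ m ≠ 0 by positivity)
      simp only [dif_pos hi]
      rw [Int.toNat_of_nonneg h2]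
      have h4 := Int.emod_add_mul_ediv (a.2 i) (2 ^ m)
      exact ⟨-(a.2 i / 2 ^ m), by linarith⟩
    ext b
    constructor
    · intro hb
      exact unif.trans _ _ _ _ (unif.symm _ _ _ hrel) hb
    · intro hb
      exact unif.trans _ _ _ _ hrel hb

theorem small_of_countable {S : Set (NM G)} (h : S.Countable) : Small.{0} S := by
  have : Countable S := h.to_subtype
  exact Countable.toSmall _

theorem exists_lvlSet (m : ℕ) : ∃ s : NM G, ¬ atom s ∧ ∀ z, mem z s ↔ lvl m z :=
  exists_set _ (small_of_countable (finite_lvl m).countable) ∅ fun π _ _ hz => lvl_act hz π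

/-- the `m`-th finite set of basic sets -/
noncomputable def lvlSet (m : ℕ) : NM G := Classical.choose (exists_lvlSet m)

theorem not_atom_lvlSet (m : ℕ) : ¬ atom (lvlSet m) := (Classical.choose_spec (exists_lvlSet m)).1

theorem mem_lvlSet {m : ℕ} {z : NM G} : mem z (lvlSet m) ↔ lvl m z :=
  (Classical.choose_spec (exists_lvlSet m)).2 z

theorem op_class (m : ℕ) (a : Pt) : Op rel {b | rel m a b} := fun _ hb =>
  ⟨m, fun _ hc => unif.trans _ _ _ _ hb hc⟩

theorem exists_cufBase : ∃ B, (permModel G).IsBase T0 B ∧ (permModel G).IsCuf B := by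
  obtain ⟨B, hB, hB'⟩ := exists_set (G := G) (fun z => ∃ m, lvl m z) (by
    have : Set.Countable ({z | ∃ m, lvl m z} : Set (NM G)) := by
      have e : ({z | ∃ m, lvl m z} : Set (NM G)) = ⋃ m, {z | lvl m z} := by ext z; simp
      rw [e]
      exact Set.countable_iUnion fun m => (finite_lvl m).countable
    exact small_of_countable this) ∅ (by
    rintro π - z ⟨m, hm⟩
    exact ⟨m, lvl_act hm π⟩)
  refine ⟨B, ⟨⟨hB, fun z hz => ?_⟩, ?_⟩, hB, lvlSet, ?_, ?_, ?_⟩
  · obtain ⟨m, a, -, hz1, hz2⟩ := (hB' z).1 hz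
    refine (mem_tau unif).2 ⟨hz1, ?_⟩
    rw [hz2]
    exact op_class m a
  · intro U x hU hx
    obtain ⟨hU1, hU2⟩ := (mem_tau unif).1 hU
    obtain ⟨a, ha, rfl⟩ := hU1.mem_iff.1 hx
    obtain ⟨m, hm⟩ := hU2 a ha
    obtain ⟨z, hz, hz'⟩ := exists_class (max m a.1) a
    refine ⟨z, (hB' z).2 ⟨max m a.1, a, le_max_right _ _, hz, hz'⟩, ?_, hz.1, ?_⟩
    · have : a ∈ pts z := by rw [hz']; exact unif.refl _ _
      exact this
    · intro w hw
      obtain ⟨b, hb, rfl⟩ := hz.mem_iff.1 hw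
      rw [hz'] at hb
      exact hm b (unif.anti' (le_max_left _ _) hb)
  · apply isSeq_of_supp (E := ∅)
    intro n π _
    apply NM.ext (by simpa using not_atom_lvlSet n) (not_atom_lvlSet n)
    intro z
    rw [mem_act, mem_lvlSet, mem_lvlSet]
    constructor
    · intro h
      have := lvl_act h π
      rwa [act_act_inv] at this
    · exact fun h => lvl_act h π⁻¹
  · intro n
    refine ⟨not_atom_lvlSet n, ?_⟩
    have : {z : NM G | mem z (lvlSet n)} = {z | lvl n z} := by
      ext z; exact mem_lvlSet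
    change Set.Finite {z : NM G | mem z (lvlSet n)}
    rw [this]
    exact finite_lvl n
  · intro z
    refine (hB' z).trans ?_
    exact exists_congr fun m => mem_lvlSet.symm

end Pool.Agent.Helper91.ZFA.Ex
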