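import Pool.Agent.Helper91.ZFA.Space

/-!
The group used in the example, acting on `ℕ × (ℕ → ℤ)`.
-/

set_option autoImplicit false

namespace Pool.Agent.Helper91.ZFA.Ex

open Pool.Agent.Helper91.ZFA

/-- the points: `ℕ` copies of the set of integer sequences -/
abbrev Pt : Type := ℕ × (ℕ → ℤ)

theorem dvd_of_eq' {d x y : ℤ} (h : d ∣ x) (e : y = x) : d ∣ y := e ▸ h

/-- the defining property of the group -/
def Good (π : Equiv.Perm Pt) : Prop :=
  (∀ a, (π a).1 = a.1) ∧ ∀ (a b : Pt) (k m : ℕ), a.1 = b.1 →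
    (∀ i < k, (2 : ℤ) ^ m ∣ a.2 i - b.2 i) →
    (2 : ℤ) ^ m ∣ ((π a).2 k - (π b).2 k) - (a.2 k - b.2 k)

theorem Good.pres {π : Equiv.Perm Pt} (h : Good π) {a b : Pt} {k m : ℕ} (hab : a.1 = b.1)
    (hk : ∀ i < k, (2 : ℤ) ^ m ∣ a.2 i - b.2 i) :
    ∀ i < k, (2 : ℤ) ^ m ∣ (π a).2 i - (π b).2 i := by
  intro i hi
  have h1 := h.2 a b i m hab fun j hj => hk j (hj.trans hi)
  have h2 := hk i hi
  have := dvd_add h1 h2
  simpa using this

/-- the group -/
def G : Subgroup (Equiv.Perm Pt) where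
  carrier := {π | Good π}
  one_mem' := ⟨fun a => rfl, fun a b k m _ _ => by simp⟩
  mul_mem' := by
    rintro π σ hπ hσ
    refine ⟨fun a => ?_, fun a b k m hab hk => ?_⟩
    · change (π (σ a)).1 = a.1
      rw [hπ.1, hσ.1]
    · change (2 : ℤ) ^ m ∣ ((π (σ a)).2 k - (π (σ b)).2 k) - (a.2 k - b.2 k)
      have h1 := hπ.2 (σ a) (σ b) k m (by rw [hσ.1, hσ.1, hab]) (hσ.pres hab hk)
      have h2 := hσ.2 a b k m hab hk
      have := dvd_add h1 h2
      simpa using this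
  inv_mem' := by
    intro π hπ
    have h0 : ∀ a, (π⁻¹ a).1 = a.1 := fun a => by
      have := hπ.1 (π⁻¹ a)
      simpa using this.symm
    have e1 : ∀ c, π (π⁻¹ c) = c := fun c => by simp
    have key : ∀ (a b : Pt) (k m : ℕ), a.1 = b.1 → (∀ i < k, (2 : ℤ) ^ m ∣ a.2 i - b.2 i) →
        (∀ i < k, (2 : ℤ) ^ m ∣ (π⁻¹ a).2 i - (π⁻¹ b).2 i) := by
      intro a b k m hab hk i
      induction i using Nat.strong_induction_on with
      | _ i ih =>
        intro hi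
        have h1 := hπ.2 (π⁻¹ a) (π⁻¹ b) i m (by rw [h0, h0, hab])
          fun j hj => ih j hj (hj.trans hi)
        have h2 := hk i hi
        rw [e1, e1] at h1
        have := dvd_sub h2 h1
        simpa using this
    refine ⟨h0, fun a b k m hab hk => ?_⟩
    have h1 := hπ.2 (π⁻¹ a) (π⁻¹ b) k m (by rw [h0, h0, hab]) (key a b k m hab hk)
    rw [e1, e1] at h1
    exact dvd_of_eq' ((dvd_neg (α := ℤ)).2 h1) (by ring)

theorem mem_G {π : Equiv.Perm Pt} : π ∈ G ↔ Good π := Iff.rfl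

/-- the equivalence relations -/
def rel (m : ℕ) (a b : Pt) : Prop := a.1 = b.1 ∧ ∀ i < m, (2 : ℤ) ^ m ∣ a.2 i - b.2 i

theorem eq_of_dvd_all {x y : ℤ} (N : ℕ) (h : ∀ m, N ≤ m → (2 : ℤ) ^ m ∣ x - y) : x = y := by
  by_contra hne
  have hne' : x - y ≠ 0 := sub_ne_zero.2 hne
  obtain ⟨m, hm⟩ := pow_unbounded_of_one_lt (|x - y|) (show (1 : ℤ) < 2 by norm_num)
  have h1 := Int.le_of_dvd (abs_pos.2 hne') ((dvd_abs _ _).2 (h (max m N) (le_max_right _ _)))
  have h2 : (2 : ℤ) ^ m ≤ 2 ^ (max m N) := pow_le_pow_right₀ (by norm_num) (le_max_left _ _)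
  omega

theorem exists_not_dvd {x : ℤ} (hx : x ≠ 0) : ∃ m : ℕ, ¬ (2 : ℤ) ^ m ∣ x := by
  by_contra hcon
  push Not at hcon
  exact hx (eq_of_dvd_all (y := 0) 0 fun m _ => by simpa using hcon m)

theorem unif : Unif G rel where
  refl := fun m a => ⟨rfl, fun i _ => by simp⟩
  symm := fun m a b h => ⟨h.1.symm, fun i hi => by
    exact dvd_of_eq' ((dvd_neg (α := ℤ)).2 (h.2 i hi)) (by ring)⟩
  trans := fun m a b c h h' => ⟨h.1.trans h'.1, fun i hi => by
    have := dvd_add (h.2 i hi) (h'.2 i hi)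
    simpa using this⟩
  anti := fun m a b h => ⟨h.1, fun i hi =>
    (pow_dvd_pow _ (Nat.le_succ m)).trans (h.2 i (hi.trans (Nat.lt_succ_self m)))⟩
  sep := fun a b h => by
    apply Prod.ext (h 0).1
    funext i
    exact eq_of_dvd_all (i + 1) fun m hm => (h m).2 i (by omega)
  inv := fun π hπ m a b h => ⟨by rw [hπ.1, hπ.1, h.1], hπ.pres h.1 h.2⟩

theorem exact_diff {π : Equiv.Perm Pt} (hπ : π ∈ G) {a b : Pt} {k : ℕ} (hab : a.1 = b.1)
    (hk : ∀ i < k, a.2 i = b.2 i) : (π a).2 k - (π b).2 k = a.2 k - b.2 k := by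
  apply eq_of_dvd_all 0
  intro m _
  exact hπ.2 a b k m hab fun i hi => by rw [hk i hi]; simp

theorem pres_prefix {π : Equiv.Perm Pt} (hπ : π ∈ G) {a b : Pt} {k : ℕ} (hab : a.1 = b.1)
    (hk : ∀ i < k, a.2 i = b.2 i) : ∀ i < k, (π a).2 i = (π b).2 i := by
  intro i hi
  have := exact_diff hπ hab (k := i) fun j hj => hk j (hj.trans hi)
  rw [hk i hi, sub_self, sub_eq_zero] at this
  exact this

theorem prefix_iff {π : Equiv.Perm Pt} (hπ : π ∈ G) {a b : Pt} {k : ℕ} (hab : a.1 = b.1) :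
    (∀ i < k, (π a).2 i = (π b).2 i) ↔ ∀ i < k, a.2 i = b.2 i := by
  refine ⟨fun h => ?_, pres_prefix hπ hab⟩
  have := pres_prefix (G.inv_mem hπ) (a := π a) (b := π b) (by rw [hπ.1, hπ.1, hab]) h
  simpa using this

open Classical in
/-- the local moves -/
def mvF (n k L : ℕ) (y : ℕ → ℤ) (s : ℤ) (a : Pt) : Pt :=
  if a.1 = n ∧ ∀ i < k, (2 : ℤ) ^ L ∣ a.2 i - y i then
    (a.1, Function.update a.2 k (a.2 k + s)) else a

theorem mvF_fst (n k L : ℕ) (y : ℕ → ℤ) (s : ℤ) (a : Pt) : (mvF n k L y s a).1 = a.1 := by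
  unfold mvF; split_ifs <;> rfl

theorem mvF_snd_of_ne (n k L : ℕ) (y : ℕ → ℤ) (s : ℤ) (a : Pt) {i : ℕ} (hi : i ≠ k) :
    (mvF n k L y s a).2 i = a.2 i := by
  unfold mvF
  split_ifs
  · exact Function.update_of_ne hi _ _
  · rfl

theorem mvF_mvF (n k L : ℕ) (y : ℕ → ℤ) (s t : ℤ) (hst : s + t = 0) (a : Pt) :
    mvF n k L y t (mvF n k L y s a) = a := by
  by_cases hc : a.1 = n ∧ ∀ i < k, (2 : ℤ) ^ L ∣ a.2 i - y i
  · have h1 : mvF n k L y s a = (a.1, Function.update a.2 k (a.2 k + s)) := by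
      unfold mvF; rw [if_pos hc]
    have hc' : (mvF n k L y s a).1 = n ∧
        ∀ i < k, (2 : ℤ) ^ L ∣ (mvF n k L y s a).2 i - y i := by
      refine ⟨by rw [mvF_fst]; exact hc.1, fun i hi => ?_⟩
      rw [mvF_snd_of_ne _ _ _ _ _ _ hi.ne]; exact hc.2 i hi
    have h2 : mvF n k L y t (mvF n k L y s a) = ((mvF n k L y s a).1,
        Function.update (mvF n k L y s a).2 k ((mvF n k L y s a).2 k + t)) := by
      conv_lhs => unfold mvF
      exact if_pos hc'
    rw [h2, h1]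
    apply Prod.ext
    · rfl
    · funext i
      by_cases hi : i = k
      · subst hi; simp; omega
      · simp [Function.update_of_ne hi]
  · have h1 : mvF n k L y s a = a := by
      unfold mvF; rw [if_neg hc]
    rw [h1]
    unfold mvF; rw [if_neg hc]

/-- the local moves as permutations -/
def mv (n k L : ℕ) (y : ℕ → ℤ) : Equiv.Perm Pt where
  toFun := mvF n k L y (2 ^ L)
  invFun := mvF n k L y (-2 ^ L)
  left_inv := mvF_mvF n k L y _ _ (by ring)
  right_inv := mvF_mvF n k L y _ _ (by ring)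

theorem mv_apply_of_not {n k L : ℕ} {y : ℕ → ℤ} {a : Pt}
    (h : ¬ (a.1 = n ∧ ∀ i < k, (2 : ℤ) ^ L ∣ a.2 i - y i)) : mv n k L y a = a := by
  change mvF _ _ _ _ _ _ = _
  unfold mvF; rw [if_neg h]

theorem mv_apply_of {n k L : ℕ} {y : ℕ → ℤ} {a : Pt}
    (h : a.1 = n ∧ ∀ i < k, (2 : ℤ) ^ L ∣ a.2 i - y i) : (mv n k L y a).2 k = a.2 k + 2 ^ L := by
  change (mvF _ _ _ _ _ _).2 k = _
  unfold mvF; rw [if_pos h]; simp

theorem mv_mem (n k L : ℕ) (y : ℕ → ℤ) : mv n k L y ∈ G := by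
  refine ⟨fun a => mvF_fst _ _ _ _ _ _, fun a b k' m hab hk => ?_⟩
  by_cases hkk : k' = k
  · subst hkk
    by_cases ha : a.1 = n ∧ ∀ i < k', (2 : ℤ) ^ L ∣ a.2 i - y i
    · by_cases hb : b.1 = n ∧ ∀ i < k', (2 : ℤ) ^ L ∣ b.2 i - y i
      · rw [mv_apply_of ha, mv_apply_of hb]
        exact dvd_of_eq' (dvd_zero _) (by ring)
      · rw [mv_apply_of ha, mv_apply_of_not hb]
        have hmL : m ≤ L := by
          by_contra hcon
          push Not at hcon
          apply hb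
          refine ⟨by rw [← hab]; exact ha.1, fun i hi => ?_⟩
          have h1 := (pow_dvd_pow (2 : ℤ) hcon.le).trans (hk i hi)
          have := dvd_sub (ha.2 i hi) h1
          simpa using this
        exact dvd_of_eq' (pow_dvd_pow (2 : ℤ) hmL) (by ring)
    · by_cases hb : b.1 = n ∧ ∀ i < k', (2 : ℤ) ^ L ∣ b.2 i - y i
      · rw [mv_apply_of_not ha, mv_apply_of hb]
        have hmL : m ≤ L := by
          by_contra hcon
          push Not at hcon
          apply ha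
          refine ⟨by rw [hab]; exact hb.1, fun i hi => ?_⟩
          have h1 := (pow_dvd_pow (2 : ℤ) hcon.le).trans (hk i hi)
          have := dvd_add h1 (hb.2 i hi)
          simpa using this
        exact dvd_of_eq' ((dvd_neg (α := ℤ)).2 (pow_dvd_pow (2 : ℤ) hmL)) (by ring)
      · rw [mv_apply_of_not ha, mv_apply_of_not hb]
        simp
  · have h1 : ∀ c, (mv n k L y c).2 k' = c.2 k' := fun c => mvF_snd_of_ne _ _ _ _ _ _ hkk
    rw [h1, h1]; simp

/-- the completeness property -/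
theorem cantor (F : ℕ → Set Pt) (E : Finset Pt)
    (hE : ∀ π ∈ G, (∀ a ∈ E, π a = a) → ∀ n, ∀ a ∈ F n, π a ∈ F n)
    (hcl : ∀ n, Op rel (F n)ᶜ) (hne : ∀ n, (F n).Nonempty) (hdec : ∀ n, F (n + 1) ⊆ F n)
    (hdiam : ∀ m, ∃ n, ∀ a ∈ F n, ∀ b ∈ F n, rel m a b) : ∃ a, ∀ n, a ∈ F n := by
  classical
  by_contra hcon
  push Not at hcon
  choose ν hν using hcon
  choose μ hμ using fun a => hcl (ν a) a (hν a)
  have hanti : Antitone F := antitone_nat_of_succ_le hdec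
  obtain ⟨J, hJ⟩ := (E.image ν).exists_le
  obtain ⟨M, hM⟩ := (E.image μ).exists_le
  obtain ⟨n1, hn1⟩ := hdiam (M + 1)
  obtain ⟨p, hp⟩ := hne (max J n1)
  have hpE : ∀ e ∈ E, ¬ rel M e p := by
    intro e he hr
    have h1 : rel (μ e) e p := unif.anti' (hM _ (Finset.mem_image_of_mem μ he)) hr
    have h2 : p ∈ F (ν e) := hanti (le_trans (hJ _ (Finset.mem_image_of_mem ν he))
      (le_max_left _ _)) hp
    exact hμ e p h1 h2
  have hfix : ∀ e ∈ E, mv p.1 M M p.2 e = e := by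
    intro e he
    apply mv_apply_of_not
    intro h
    exact hpE e he h
  have h1 := hE _ (mv_mem p.1 M M p.2) hfix _ p hp
  have h2 := hn1 p (hanti (le_max_right _ _) hp) _ (hanti (le_max_right _ _) h1)
  have h3 := h2.2 M (Nat.lt_succ_self M)
  rw [mv_apply_of ⟨rfl, fun i _ => by simp⟩] at h3
  have h4 : (2 : ℤ) ^ (M + 1) ∣ 2 ^ M := by
    exact dvd_of_eq' ((dvd_neg (α := ℤ)).2 h3) (by ring)
  have h5 := Int.le_of_dvd (by positivity) h4
  have h6 : (2 : ℤ) ^ M > 0 := by positivity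
  rw [pow_succ] at h5
  omega

end Pool.Agent.Helper91.ZFA.Ex
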