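import Pool.Agent.Helper91.ZFA.Basic
import Pool.Agent.Helper91.ZFA.Defs

/-!
Permutation models of ZFA.
-/

set_option autoImplicit false

namespace Pool.Agent.Helper91.ZFA

open V

variable {A : Type} (G : Subgroup (Equiv.Perm A))

/-- `E` supports `x` -/
def Supp (E : Finset A) (x : V A) : Prop :=
  ∀ π ∈ G, (∀ a ∈ E, π a = a) → act π x = x

/-- symmetric: has a finite support -/
def Sym (x : V A) : Prop := ∃ E : Finset A, Supp G E x

/-- hereditarily symmetric -/
inductive HS : V A → Prop
  | intro (x : V A) (h : Sym G x) (h' : ∀ y, Mem y x → HS y) : HS x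

variable {G}

theorem HS.sym {x : V A} (h : HS G x) : Sym G x := by cases h; assumption

theorem HS.of_mem {x y : V A} (h : HS G x) (hy : Mem y x) : HS G y := by
  cases h with
  | intro _ _ h' => exact h' y hy

theorem Supp.mono {E E' : Finset A} (hE : E ⊆ E') {x : V A} (h : Supp G E x) : Supp G E' x :=
  fun π hπ hf => h π hπ fun a ha => hf a (hE ha)

theorem hs_atom (a : A) : HS G (atom a) :=
  .intro _ ⟨{a}, fun π _ h => by rw [act_atom, h a (by simp)]⟩
    fun y hy => absurd hy (not_mem_atom y a)

theorem Supp.act {E : Finset A} {x : V A} (h : Supp G E x) {π : Equiv.Perm A} (hπ : π ∈ G) :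
    Supp G (E.map π.toEmbedding) (V.act π x) := by
  intro σ hσ hf
  have h1 : V.act (π⁻¹ * σ * π) x = x := by
    apply h _ (G.mul_mem (G.mul_mem (G.inv_mem hπ) hσ) hπ)
    intro a ha
    simp only [Equiv.Perm.mul_apply]
    rw [hf (π a) (by simpa using ha)]
    simp
  calc V.act σ (V.act π x) = V.act π (V.act (π⁻¹ * σ * π) x) := by
        rw [← act_mul, ← act_mul]; congr 1; group
    _ = V.act π x := by rw [h1]

theorem HS.act {x : V A} (h : HS G x) {π : Equiv.Perm A} (hπ : π ∈ G) : HS G (V.act π x) := by
  induction h with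
  | intro x h h' ih =>
    obtain ⟨E, hE⟩ := h
    refine .intro _ ⟨_, hE.act hπ⟩ fun y hy => ?_
    rw [mem_act] at hy
    have := ih _ hy
    rwa [act_act_inv] at this

theorem hs_ofSet {S : Set (V A)} [Small.{0} S] (hS : ∀ x ∈ S, HS G x) (E : Finset A)
    (h : ∀ π ∈ G, (∀ a ∈ E, π a = a) → ∀ x ∈ S, V.act π x ∈ S) : HS G (ofSet S) := by
  refine .intro _ ⟨E, fun π hπ hf => ?_⟩ fun y hy => hS y (mem_ofSet.1 hy)
  apply act_eq_self (not_isAtom_ofSet S)
  · intro z hz
    rw [mem_ofSet] at hz ⊢
    exact h π hπ hf z hz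
  · intro z hz
    rw [mem_ofSet] at hz ⊢
    refine h π⁻¹ (G.inv_mem hπ) (fun a ha => ?_) z hz
    rw [Equiv.Perm.inv_eq_iff_eq, hf a ha]

variable (G)

/-- the universe of the permutation model -/
def NM : Type 1 := {x : V A // HS G x}

variable {G}

namespace NM

/-- membership in the permutation model -/
def mem (x y : NM G) : Prop := Mem x.1 y.1

/-- atoms of the permutation model -/
def atom (x : NM G) : Prop := IsAtom x.1

/-- the action of the group on the permutation model -/
def act (π : G) (x : NM G) : NM G := ⟨V.act π.1 x.1, x.2.act π.2⟩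

@[simp] theorem act_one (x : NM G) : act 1 x = x := Subtype.ext (V.act_one _)

theorem act_mul (π σ : G) (x : NM G) : act (π * σ) x = act π (act σ x) :=
  Subtype.ext (V.act_mul _ _ _)

@[simp] theorem act_inv_act (π : G) (x : NM G) : act π⁻¹ (act π x) = x := by
  rw [← act_mul]; simp

@[simp] theorem act_act_inv (π : G) (x : NM G) : act π (act π⁻¹ x) = x := by
  rw [← act_mul]; simp

theorem act_injective (π : G) : Function.Injective (act π : NM G → NM G) := fun x y h => by
  rw [← act_inv_act π x, h, act_inv_act]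

@[simp] theorem act_mem_act {π : G} {x y : NM G} : mem (act π x) (act π y) ↔ mem x y :=
  V.act_mem_act

@[simp] theorem atom_act {π : G} {x : NM G} : atom (act π x) ↔ atom x := isAtom_act

theorem ext {x y : NM G} (hx : ¬ atom x) (hy : ¬ atom y) (h : ∀ z, mem z x ↔ mem z y) :
    x = y := by
  apply Subtype.ext
  apply V.ext hx hy
  intro z
  constructor
  · intro hz
    exact (h ⟨z, x.2.of_mem hz⟩).1 hz
  · intro hz
    exact (h ⟨z, y.2.of_mem hz⟩).2 hz

theorem wf : WellFounded (mem : NM G → NM G → Prop) :=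
  InvImage.wf Subtype.val V.wf_mem

theorem not_atom_of_mem {x y : NM G} (h : mem x y) : ¬ atom y := V.not_isAtom_of_mem h

/-- `E` supports `x` -/
def supp (E : Finset A) (x : NM G) : Prop := ∀ π : G, (∀ a ∈ E, π.1 a = a) → act π x = x

theorem exists_supp (x : NM G) : ∃ E : Finset A, supp E x := by
  obtain ⟨E, hE⟩ := x.2.sym
  exact ⟨E, fun π h => Subtype.ext (hE π.1 π.2 h)⟩

theorem supp.mono {E E' : Finset A} (hE : E ⊆ E') {x : NM G} (h : supp E x) : supp E' x :=
  fun π hf => h π fun a ha => hf a (hE ha)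

/-- comprehension: small invariant classes are sets of the model -/
theorem exists_set (P : NM G → Prop) (hs : Small.{0} {x | P x}) (E : Finset A)
    (h : ∀ π : G, (∀ a ∈ E, π.1 a = a) → ∀ x, P x → P (act π x)) :
    ∃ s : NM G, ¬ atom s ∧ ∀ z, mem z s ↔ P z := by
  have hsm : Small.{0} (Subtype.val '' {x : NM G | P x} : Set (V A)) :=
    @small_image _ _ _ {x : NM G | P x} hs
  refine ⟨⟨ofSet (Subtype.val '' {x : NM G | P x}), ?_⟩, not_isAtom_ofSet _, fun z => ?_⟩
  · apply hs_ofSet (E := E)
    · rintro _ ⟨x, -, rfl⟩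
      exact x.2
    · rintro π hπ hf _ ⟨x, hx, rfl⟩
      exact ⟨act ⟨π, hπ⟩ x, h ⟨π, hπ⟩ hf x hx, rfl⟩
  · change Mem z.1 (ofSet _) ↔ P z
    rw [mem_ofSet]
    constructor
    · rintro ⟨x, hx, hxz⟩
      rw [← Subtype.ext hxz]; exact hx
    · intro hz
      exact ⟨z, hz, rfl⟩

theorem small_elems (x : NM G) : Small.{0} {z : NM G | mem z x} := by
  have : Small.{0} {z : V A | Mem z x.1} := inferInstance
  exact small_of_injective (β := {z : V A | Mem z x.1})
    (f := fun z => ⟨z.1.1, z.2⟩) fun z w h => by
      apply Subtype.ext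
      apply Subtype.ext
      exact congrArg (fun u : {z : V A | Mem z x.1} => u.1) h

theorem small_sub {P Q : NM G → Prop} (h : ∀ x, P x → Q x) (hQ : Small.{0} {x | Q x}) :
    Small.{0} {x | P x} := small_subset (s := {x | Q x}) (t := {x | P x}) h

/-- a subset of a set, with a support -/
theorem exists_sep (x : NM G) (P : NM G → Prop) (E : Finset A) (hx : supp E x)
    (h : ∀ π : G, (∀ a ∈ E, π.1 a = a) → ∀ z, mem z x → P z → P (act π z)) :
    ∃ s : NM G, ¬ atom s ∧ ∀ z, mem z s ↔ (mem z x ∧ P z) := by
  apply exists_set (fun z => mem z x ∧ P z) (small_sub (fun z hz => hz.1) (small_elems x)) E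
  rintro π hf z ⟨hz, hPz⟩
  refine ⟨?_, h π hf z hz hPz⟩
  rw [← hx π hf, act_mem_act]
  exact hz

end NM

/-- the numerals in the cumulative hierarchy -/
noncomputable def natV : ℕ → V A
  | n => ofRange fun i : Fin n => natV i.1
termination_by n => n
decreasing_by exact i.2

theorem mem_natV {n : ℕ} {x : V A} : Mem x (natV n) ↔ ∃ i < n, x = natV i := by
  rw [natV, mem_ofRange]
  constructor
  · rintro ⟨i, rfl⟩
    exact ⟨i.1, i.2, rfl⟩
  · rintro ⟨i, hi, rfl⟩
    exact ⟨⟨i, hi⟩, rfl⟩

theorem act_natV (π : Equiv.Perm A) (n : ℕ) : V.act π (natV n) = natV n := by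
  induction n using Nat.strong_induction_on with
  | _ n ih =>
    rw [natV, act_ofRange]
    congr 1
    funext i
    exact ih i.1 i.2

theorem not_isAtom_natV (n : ℕ) : ¬ IsAtom (natV n : V A) := by
  rw [natV]; exact not_isAtom_ofRange _

theorem hs_natV (n : ℕ) : HS G (natV n : V A) := by
  induction n using Nat.strong_induction_on with
  | _ n ih =>
    refine .intro _ ⟨∅, fun π _ _ => act_natV π n⟩ fun y hy => ?_
    obtain ⟨i, hi, rfl⟩ := mem_natV.1 hy
    exact ih i hi

namespace NM

/-- the numerals of the permutation model -/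
noncomputable def nat (n : ℕ) : NM G := ⟨natV n, hs_natV n⟩

@[simp] theorem act_nat (π : G) (n : ℕ) : act π (nat n : NM G) = nat n :=
  Subtype.ext (act_natV _ _)

theorem not_atom_nat (n : ℕ) : ¬ atom (nat n : NM G) := not_isAtom_natV n

theorem mem_nat {n : ℕ} {x : NM G} : mem x (nat n) ↔ ∃ i < n, x = nat i := by
  change Mem x.1 (natV n) ↔ _
  rw [mem_natV]
  refine exists_congr fun i => and_congr_right fun _ => ?_
  exact ⟨fun h => Subtype.ext h, fun h => congrArg Subtype.val h⟩

theorem mem_nat_succ {n : ℕ} {x : NM G} : mem x (nat (n + 1)) ↔ (mem x (nat n) ∨ x = nat n) := by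
  rw [mem_nat, mem_nat]
  constructor
  · rintro ⟨i, hi, rfl⟩
    rcases Nat.lt_succ_iff_lt_or_eq.1 hi with h | rfl
    · exact Or.inl ⟨i, h, rfl⟩
    · exact Or.inr rfl
  · rintro (⟨i, hi, rfl⟩ | rfl)
    · exact ⟨i, by omega, rfl⟩
    · exact ⟨n, by omega, rfl⟩

theorem nat_injective : Function.Injective (nat : ℕ → NM G) := by
  have key : ∀ m n : ℕ, m < n → (nat m : NM G) ≠ nat n := by
    intro m n h heq
    have h1 : mem (nat m : NM G) (nat n) := mem_nat.2 ⟨m, h, rfl⟩
    rw [heq] at h1
    exact (wf (G := G)).irrefl.irrefl _ h1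
  intro m n h
  rcases lt_trichotomy m n with h' | h' | h'
  · exact absurd h (key m n h')
  · exact h'
  · exact absurd h.symm (key n m h')

end NM

/-- a bound for the variables of a formula -/
def Fml.bound : Fml → ℕ
  | .mem i j => max (i + 1) (j + 1)
  | .eq i j => max (i + 1) (j + 1)
  | .atom i => i + 1
  | .neg φ => φ.bound
  | .and φ ψ => max φ.bound ψ.bound
  | .all i φ => max (i + 1) φ.bound

theorem sat_congr {M : Type 1} (mem : M → M → Prop) (at' : M → Prop) (φ : Fml) :
    ∀ v w : ℕ → M, (∀ i < φ.bound, v i = w i) → (Sat mem at' φ v ↔ Sat mem at' φ w) := by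
  induction φ with
  | mem i j =>
    intro v w h
    simp only [Fml.bound] at h
    simp only [Sat]
    rw [h i (by omega), h j (by omega)]
  | eq i j =>
    intro v w h
    simp only [Fml.bound] at h
    simp only [Sat]
    rw [h i (by omega), h j (by omega)]
  | atom i =>
    intro v w h
    simp only [Fml.bound] at h
    simp only [Sat]
    rw [h i (by omega)]
  | neg φ ih =>
    intro v w h
    simp only [Sat]
    rw [ih v w h]
  | and φ ψ ih1 ih2 =>
    intro v w h
    simp only [Fml.bound] at h
    simp only [Sat]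
    rw [ih1 v w fun i hi => h i (by omega), ih2 v w fun i hi => h i (by omega)]
  | all i φ ih =>
    intro v w h
    simp only [Fml.bound] at h
    simp only [Sat]
    refine forall_congr' fun x => ?_
    apply ih
    intro j hj
    by_cases hji : j = i
    · subst hji; simp
    · rw [Function.update_of_ne hji, Function.update_of_ne hji]
      exact h j (by omega)

theorem sat_act (π : G) (φ : Fml) :
    ∀ v : ℕ → NM G, Sat NM.mem NM.atom φ (fun i => NM.act π (v i)) ↔ Sat NM.mem NM.atom φ v := by
  induction φ with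
  | mem i j => intro v; simp [Sat]
  | eq i j => intro v; simp only [Sat]; exact (NM.act_injective π).eq_iff
  | atom i => intro v; simp [Sat]
  | neg φ ih => intro v; simp only [Sat]; rw [ih]
  | and φ ψ ih1 ih2 => intro v; simp only [Sat]; rw [ih1, ih2]
  | all i φ ih =>
    intro v
    simp only [Sat]
    have key : ∀ x, (Function.update (fun j => NM.act π (v j)) i (NM.act π x)) =
        fun j => NM.act π (Function.update v i x j) := by
      intro x
      funext j
      by_cases hji : j = i
      · subst hji; simp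
      · rw [Function.update_of_ne hji, Function.update_of_ne hji]
    constructor
    · intro h x
      have := h (NM.act π x)
      rwa [key, ih] at this
    · intro h x
      have := h (NM.act π⁻¹ x)
      rw [← ih, ← key, NM.act_act_inv] at this
      exact this

theorem exists_common_supp (v : ℕ → NM G) (n : ℕ) : ∃ E : Finset A, ∀ i < n, NM.supp E (v i) := by
  classical
  choose E hE using fun i => NM.exists_supp (v i)
  refine ⟨(Finset.range n).biUnion E, fun i hi => (hE i).mono ?_⟩
  exact Finset.subset_biUnion_of_mem E (Finset.mem_range.2 hi)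

theorem sat_invariant {φ : Fml} {v : ℕ → NM G} {E : Finset A}
    (hE : ∀ i < φ.bound, NM.supp E (v i)) {π : G} (hf : ∀ a ∈ E, π.1 a = a) {z : NM G}
    (h : Sat NM.mem NM.atom φ (Function.update v 0 z)) :
    Sat NM.mem NM.atom φ (Function.update v 0 (NM.act π z)) := by
  rw [← sat_act π] at h
  refine (sat_congr _ _ φ _ _ ?_).1 h
  intro i hi
  by_cases h0 : i = 0
  · subst h0; simp
  · rw [Function.update_of_ne h0, Function.update_of_ne h0]
    exact hE i hi π hf

theorem sat_invariant2 {φ : Fml} {v : ℕ → NM G} {E : Finset A}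
    (hE : ∀ i < φ.bound, NM.supp E (v i)) {π : G} (hf : ∀ a ∈ E, π.1 a = a) {a b : NM G}
    (h : Sat NM.mem NM.atom φ (Function.update (Function.update v 0 a) 1 b)) :
    Sat NM.mem NM.atom φ
      (Function.update (Function.update v 0 (NM.act π a)) 1 (NM.act π b)) := by
  rw [← sat_act π] at h
  refine (sat_congr _ _ φ _ _ ?_).1 h
  intro i hi
  by_cases h1 : i = 1
  · subst h1; simp
  · rw [Function.update_of_ne h1, Function.update_of_ne h1]
    by_cases h0 : i = 0
    · subst h0; simp
    · rw [Function.update_of_ne h0, Function.update_of_ne h0]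
      exact hE i hi π hf

variable (G)

/-- the permutation model as a model of ZFA -/
noncomputable abbrev permModel : ZFAModel where
  M := NM G
  mem := NM.mem
  atom := NM.atom
  atom_empty := by
    intro a ha x hx
    exact NM.not_atom_of_mem hx ha
  ext := fun x y hx hy h => NM.ext hx hy h
  atoms_set := by
    apply NM.exists_set (fun x => NM.atom x) _ ∅
    · intro π _ x hx
      exact NM.atom_act.2 hx
    · have : {x : NM G | NM.atom x} = Set.range fun a : A => (⟨V.atom a, hs_atom a⟩ : NM G) := by
        ext x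
        constructor
        · intro hx
          obtain ⟨a, ha⟩ := V.exists_atom hx
          exact ⟨a, Subtype.ext ha.symm⟩
        · rintro ⟨a, rfl⟩
          exact V.isAtom_atom a
      rw [this]; exact small_range _
  pairing := by
    intro x y
    classical
    obtain ⟨E, hE⟩ := NM.exists_supp x
    obtain ⟨F, hF⟩ := NM.exists_supp y
    apply NM.exists_set (fun z => z = x ∨ z = y) _ (E ∪ F)
    · rintro π hf z (rfl | rfl)
      · exact Or.inl (hE π fun a ha => hf a (Finset.mem_union_left _ ha))
      · exact Or.inr (hF π fun a ha => hf a (Finset.mem_union_right _ ha))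
    · have : ({z | z = x ∨ z = y} : Set (NM G)) = {x, y} := by ext z; simp
      rw [this]
      have : Countable ({x, y} : Set (NM G)) := (Set.toFinite _).countable
      infer_instance
  union := by
    intro x
    obtain ⟨E, hE⟩ := NM.exists_supp x
    apply NM.exists_set (fun z => ∃ y, NM.mem y x ∧ NM.mem z y) _ E
    · rintro π hf z ⟨y, hyx, hzy⟩
      refine ⟨NM.act π y, ?_, NM.act_mem_act.2 hzy⟩
      rw [← hE π hf]; exact NM.act_mem_act.2 hyx
    · have : ({z | ∃ y, NM.mem y x ∧ NM.mem z y} : Set (NM G)) =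
          ⋃ y : {y : NM G | NM.mem y x}, {z | NM.mem z y.1} := by
        ext z; simp
      rw [this]
      have h1 := NM.small_elems x
      have h2 : ∀ y : {y : NM G | NM.mem y x}, Small.{0} {z : NM G | NM.mem z y.1} :=
        fun y => NM.small_elems y.1
      exact small_iUnion (ι := {y : NM G | NM.mem y x}) fun y => {z | NM.mem z y.1}
  power := by
    intro x
    obtain ⟨E, hE⟩ := NM.exists_supp x
    apply NM.exists_set (fun y => ¬ NM.atom y ∧ ∀ z, NM.mem z y → NM.mem z x) _ E
    · rintro π hf y ⟨hy, hyx⟩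
      refine ⟨by simpa using hy, fun z hz => ?_⟩
      have h1 : NM.mem (NM.act π⁻¹ z) y := by
        rw [← NM.act_mem_act (π := π)]; simpa using hz
      have h2 := hyx _ h1
      rw [← hE π hf, ← NM.act_act_inv π z]
      exact NM.act_mem_act.2 h2
    · have h1 := NM.small_elems x
      refine small_of_injective (β := Set (Shrink.{0} {z : NM G | NM.mem z x}))
        (f := fun y => {i | NM.mem ((equivShrink _).symm i).1 y.1}) ?_
      rintro ⟨y, hy, hyx⟩ ⟨y', hy', hyx'⟩ h
      apply Subtype.ext
      apply NM.ext hy hy'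
      intro z
      have h2 : ∀ z (hz : NM.mem z x), NM.mem z y ↔ NM.mem z y' := by
        intro z hz
        have := Set.ext_iff.1 h (equivShrink {z : NM G | NM.mem z x} ⟨z, hz⟩)
        simpa using this
      exact ⟨fun hz => (h2 z (hyx z hz)).1 hz, fun hz => (h2 z (hyx' z hz)).2 hz⟩
  infinity := by
    obtain ⟨s, hs, hs'⟩ := NM.exists_set (G := G) (fun z => ∃ n, z = NM.nat n) (by
      have : ({z | ∃ n, z = NM.nat n} : Set (NM G)) = Set.range NM.nat := by
        ext z; simp [eq_comm]
      rw [this]; exact small_range _) ∅ (by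
        rintro π _ z ⟨n, rfl⟩
        exact ⟨n, NM.act_nat π n⟩)
    refine ⟨s, ⟨NM.nat 0, (hs' _).2 ⟨0, rfl⟩, NM.not_atom_nat 0, fun z hz => ?_⟩, ?_⟩
    · obtain ⟨i, hi, -⟩ := NM.mem_nat.1 hz
      omega
    · intro x hx
      obtain ⟨n, rfl⟩ := (hs' _).1 hx
      exact ⟨NM.nat (n + 1), (hs' _).2 ⟨_, rfl⟩, NM.not_atom_nat _, fun z => NM.mem_nat_succ⟩
  foundation := by
    rintro x ⟨z, hz⟩
    obtain ⟨m, hm, hm'⟩ := NM.wf.has_min {z : NM G | NM.mem z x} ⟨z, hz⟩
    exact ⟨m, hm, fun w hw => hm' w hw⟩
  separation := by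
    intro φ v x
    classical
    obtain ⟨E, hE⟩ := NM.exists_supp x
    obtain ⟨F, hF⟩ := exists_common_supp v φ.bound
    apply NM.exists_sep x (fun z => Sat NM.mem NM.atom φ (Function.update v 0 z)) (E ∪ F)
      (hE.mono Finset.subset_union_left)
    intro π hf z _ hz
    exact sat_invariant (fun i hi => (hF i hi).mono Finset.subset_union_right) hf hz
  replacement := by
    intro φ v x h
    classical
    obtain ⟨E, hE⟩ := NM.exists_supp x
    obtain ⟨F, hF⟩ := exists_common_supp v φ.bound
    apply NM.exists_set (fun b => ∃ a, NM.mem a x ∧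
      Sat NM.mem NM.atom φ (Function.update (Function.update v 0 a) 1 b)) _ (E ∪ F)
    · rintro π hf b ⟨a, ha, hab⟩
      refine ⟨NM.act π a, ?_, ?_⟩
      · rw [← hE.mono Finset.subset_union_left π hf]; exact NM.act_mem_act.2 ha
      · exact sat_invariant2 (fun i hi => (hF i hi).mono Finset.subset_union_right) hf hab
    · choose f hf hf' using fun a : {a : NM G | NM.mem a x} => (h a.1 a.2)
      have hs := NM.small_elems x
      have : ({b | ∃ a, NM.mem a x ∧
          Sat NM.mem NM.atom φ (Function.update (Function.update v 0 a) 1 b)} : Set (NM G)) =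
          Set.range f := by
        ext b
        constructor
        · rintro ⟨a, ha, hab⟩
          exact ⟨⟨a, ha⟩, (hf' ⟨a, ha⟩ b hab).symm⟩
        · rintro ⟨a, rfl⟩
          exact ⟨a.1, a.2, hf a⟩
      rw [this]; exact small_range f
  wf := NM.wf

end Pool.Agent.Helper91.ZFA
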