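import Pool.Agent.Helper91.ZFA.Model

/-!
Pairs, sequences and choice functions in permutation models.
-/

set_option autoImplicit false

namespace Pool.Agent.Helper91.ZFA

variable {A : Type} {G : Subgroup (Equiv.Perm A)}

namespace NM

/-- the atom `a` of the permutation model -/
def atomN (a : A) : NM G := ⟨V.atom a, hs_atom a⟩

@[simp] theorem act_atomN (π : G) (a : A) : act π (atomN a : NM G) = atomN (π.1 a) := rfl

theorem atomN_injective : Function.Injective (atomN : A → NM G) := fun _ _ h =>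
  V.atom_injective (congrArg Subtype.val h)

theorem exists_atomN {x : NM G} (h : atom x) : ∃ a, x = atomN a := by
  obtain ⟨a, ha⟩ := V.exists_atom h
  exact ⟨a, Subtype.ext ha⟩

@[simp] theorem atom_atomN (a : A) : atom (atomN a : NM G) := V.isAtom_atom a

theorem not_mem_atomN (x : NM G) (a : A) : ¬ mem x (atomN a) := V.not_mem_atom _ _

theorem mem_act {π : G} {x y : NM G} : mem x (act π y) ↔ mem (act π⁻¹ x) y := by
  rw [← act_mem_act (π := π) (x := act π⁻¹ x), act_act_inv]

end NM

open NM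

theorem upair_exists (x y : NM G) : ∃ s, (permModel G).IsUPair s x y :=
  (permModel G).pairing x y

theorem upair_unique {s s' x y : NM G} (h : (permModel G).IsUPair s x y)
    (h' : (permModel G).IsUPair s' x y) : s = s' :=
  NM.ext h.1 h'.1 fun z => by rw [show NM.mem z s ↔ _ from h.2 z, show NM.mem z s' ↔ _ from h'.2 z]

theorem upair_act {s x y : NM G} (π : G) (h : (permModel G).IsUPair s x y) :
    (permModel G).IsUPair (act π s) (act π x) (act π y) := by
  refine ⟨by simpa using h.1, fun z => ?_⟩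
  change NM.mem z (act π s) ↔ _
  rw [NM.mem_act]
  refine (h.2 _).trans ?_
  constructor
  · rintro (h | h)
    · left; rw [← h, act_act_inv]
    · right; rw [← h, act_act_inv]
  · rintro (h | h)
    · left; rw [h, act_inv_act]
    · right; rw [h, act_inv_act]

theorem opair_exists (x y : NM G) : ∃ p, (permModel G).IsOPair p x y := by
  obtain ⟨s, hs⟩ := upair_exists x x
  obtain ⟨t, ht⟩ := upair_exists x y
  obtain ⟨p, hp⟩ := upair_exists s t
  exact ⟨p, s, t, hs, ht, hp⟩

theorem opair_unique {p p' x y : NM G} (h : (permModel G).IsOPair p x y)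
    (h' : (permModel G).IsOPair p' x y) : p = p' := by
  obtain ⟨s, t, hs, ht, hp⟩ := h
  obtain ⟨s', t', hs', ht', hp'⟩ := h'
  obtain rfl := upair_unique hs hs'
  obtain rfl := upair_unique ht ht'
  exact upair_unique hp hp'

theorem opair_act {p x y : NM G} (π : G) (h : (permModel G).IsOPair p x y) :
    (permModel G).IsOPair (act π p) (act π x) (act π y) := by
  obtain ⟨s, t, hs, ht, hp⟩ := h
  exact ⟨act π s, act π t, upair_act π hs, upair_act π ht, upair_act π hp⟩

theorem opair_inj {p x y x' y' : NM G} (h : (permModel G).IsOPair p x y)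
    (h' : (permModel G).IsOPair p x' y') : x = x' ∧ y = y' := by
  obtain ⟨s, t, hs, ht, hp⟩ := h
  obtain ⟨s', t', hs', ht', hp'⟩ := h'
  have hs2 : ∀ z, NM.mem z s ↔ z = x := fun z => (hs.2 z).trans (or_self_iff)
  have ht2 : ∀ z, NM.mem z t ↔ (z = x ∨ z = y) := ht.2
  have hp2 : ∀ z, NM.mem z p ↔ (z = s ∨ z = t) := hp.2
  have hs2' : ∀ z, NM.mem z s' ↔ z = x' := fun z => (hs'.2 z).trans (or_self_iff)
  have ht2' : ∀ z, NM.mem z t' ↔ (z = x' ∨ z = y') := ht'.2
  have hp2' : ∀ z, NM.mem z p ↔ (z = s' ∨ z = t') := hp'.2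
  have e1 : ∀ z, (z = s ∨ z = t) ↔ (z = s' ∨ z = t') := fun z => (hp2 z).symm.trans (hp2' z)
  have hxx : x = x' := by
    rcases (e1 s).1 (Or.inl rfl) with h | h
    · have := (hs2 x).2 rfl
      rw [h] at this
      exact (hs2' x).1 this
    · have h1 : ∀ z, z = x ↔ (z = x' ∨ z = y') := by
        intro z
        rw [← hs2 z, h, ht2' z]
      exact ((h1 x').2 (Or.inl rfl)).symm
  subst hxx
  obtain rfl : s = s' := upair_unique hs hs'
  refine ⟨rfl, ?_⟩
  rcases (e1 t).1 (Or.inr rfl) with h | h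
  · have h1 : ∀ z, (z = x ∨ z = y) ↔ z = x := by
      intro z
      rw [← ht2 z, h, hs2 z]
    have hy : y = x := (h1 y).1 (Or.inr rfl)
    rcases (e1 t').2 (Or.inr rfl) with h' | h'
    · have h2 : ∀ z, (z = x ∨ z = y') ↔ z = x := by
        intro z
        rw [← ht2' z, h', hs2 z]
      rw [hy, (h2 y').1 (Or.inr rfl)]
    · have h2 : ∀ z, (z = x ∨ z = y') ↔ (z = x ∨ z = y) := by
        intro z
        rw [← ht2' z, h', ht2 z]
      rcases (h2 y').1 (Or.inr rfl) with h3 | h3
      · rw [hy, h3]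
      · exact h3.symm
  · have h2 : ∀ z, (z = x ∨ z = y) ↔ (z = x ∨ z = y') := by
      intro z
      rw [← ht2 z, h, ht2' z]
    rcases (h2 y).1 (Or.inr rfl) with h3 | h3
    · rcases (h2 y').2 (Or.inr rfl) with h4 | h4
      · rw [h3, h4]
      · exact h4.symm
    · exact h3

theorem isNat_iff {n : ℕ} {m : NM G} : (permModel G).IsNat n m ↔ m = NM.nat n := by
  induction n generalizing m with
  | zero =>
    constructor
    · rintro ⟨h1, h2⟩
      apply NM.ext h1 (NM.not_atom_nat 0)
      intro z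
      constructor
      · intro h; exact absurd h (h2 z)
      · intro h
        obtain ⟨i, hi, -⟩ := NM.mem_nat.1 h
        omega
    · rintro rfl
      refine ⟨NM.not_atom_nat 0, fun z h => ?_⟩
      obtain ⟨i, hi, -⟩ := NM.mem_nat.1 h
      omega
  | succ n ih =>
    constructor
    · rintro ⟨y, hy, h1, h2⟩
      rw [ih] at hy
      subst hy
      apply NM.ext h1 (NM.not_atom_nat _)
      intro z
      rw [NM.mem_nat_succ]
      exact h2 z
    · rintro rfl
      exact ⟨NM.nat n, ih.2 rfl, NM.not_atom_nat _, fun z => NM.mem_nat_succ⟩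

theorem supp_of_isSeq {f : ℕ → NM G} (h : (permModel G).IsSeq f) :
    ∃ E : Finset A, ∀ n, NM.supp E (f n) := by
  obtain ⟨g, hg⟩ := h
  obtain ⟨E, hE⟩ := NM.exists_supp g
  refine ⟨E, fun n π hf => ?_⟩
  obtain ⟨p, hp⟩ := opair_exists (NM.nat n) (f n)
  have h1 : NM.mem p g := (hg p).2 ⟨n, NM.nat n, isNat_iff.2 rfl, hp⟩
  have h2 : NM.mem (act π p) g := by
    rw [← hE π hf]; exact act_mem_act.2 h1
  obtain ⟨n', m', hm', hp'⟩ := (hg _).1 h2
  rw [isNat_iff] at hm'
  subst hm'
  have h3 := opair_act π hp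
  rw [act_nat] at h3
  obtain ⟨h4, h5⟩ := opair_inj h3 hp'
  rw [← NM.nat_injective h4] at h5
  exact h5

theorem isSeq_of_supp {f : ℕ → NM G} {E : Finset A} (h : ∀ n, NM.supp E (f n)) :
    (permModel G).IsSeq f := by
  obtain ⟨g, -, hg⟩ := NM.exists_set (G := G)
    (fun p => ∃ n, (permModel G).IsOPair p (NM.nat n) (f n)) (by
      choose q hq using fun n => opair_exists (NM.nat n : NM G) (f n)
      have : ({p | ∃ n, (permModel G).IsOPair p (NM.nat n) (f n)} : Set (NM G)) =
          Set.range q := by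
        ext p
        constructor
        · rintro ⟨n, hn⟩
          exact ⟨n, opair_unique (hq n) hn⟩
        · rintro ⟨n, rfl⟩
          exact ⟨n, hq n⟩
      rw [this]; exact small_range _) E (by
      rintro π hf p ⟨n, hn⟩
      refine ⟨n, ?_⟩
      have := opair_act π hn
      rwa [act_nat, h n π hf] at this)
  refine ⟨g, fun p => (hg p).trans ?_⟩
  constructor
  · rintro ⟨n, hn⟩
    exact ⟨n, NM.nat n, isNat_iff.2 rfl, hn⟩
  · rintro ⟨n, m, hm, hp⟩
    rw [isNat_iff] at hm
    subst hm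
    exact ⟨n, hp⟩

theorem hasChoice_of {P : NM G → Prop} (hP : Small.{0} {x | P x}) (c : NM G → NM G)
    (hc : ∀ F, P F → NM.mem (c F) F) (E : Finset A)
    (hE : ∀ π : G, (∀ a ∈ E, π.1 a = a) → ∀ F, P F → P (act π F) ∧ c (act π F) = act π (c F)) :
    (permModel G).HasChoice P := by
  obtain ⟨g, -, hg⟩ := NM.exists_set (G := G)
    (fun p => ∃ F, P F ∧ (permModel G).IsOPair p F (c F)) (by
      choose q hq using fun F : {x | P x} => opair_exists F.1 (c F.1)
      have : ({p | ∃ F, P F ∧ (permModel G).IsOPair p F (c F)} : Set (NM G)) =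
          Set.range q := by
        ext p
        constructor
        · rintro ⟨F, hF, hn⟩
          exact ⟨⟨F, hF⟩, opair_unique (hq ⟨F, hF⟩) hn⟩
        · rintro ⟨F, rfl⟩
          exact ⟨F.1, F.2, hq F⟩
      rw [this]; exact small_range _) E (by
      rintro π hf p ⟨F, hF, hp⟩
      obtain ⟨h1, h2⟩ := hE π hf F hF
      refine ⟨act π F, h1, ?_⟩
      rw [h2]
      exact opair_act π hp)
  refine ⟨g, fun F hF => ⟨c F, hc F hF, ?_, ?_⟩⟩
  · obtain ⟨p, hp⟩ := opair_exists F (c F)
    exact ⟨p, (hg p).2 ⟨F, hF, hp⟩, hp⟩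
  · rintro y' ⟨p, hpg, hp⟩
    obtain ⟨F', hF', hp'⟩ := (hg p).1 hpg
    obtain ⟨h1, h2⟩ := opair_inj hp hp'
    rw [h2, h1]

end Pool.Agent.Helper91.ZFA
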