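import Pool.Agent.Helper91.ZFA.Pairs

/-!
The space of all atoms of a permutation model with an invariant ultrametric.
-/

set_option autoImplicit false

namespace Pool.Agent.Helper91.ZFA

variable {A : Type}

/-- a decreasing separating sequence of invariant equivalence relations -/
structure Unif (G : Subgroup (Equiv.Perm A)) (r : ℕ → A → A → Prop) : Prop where
  refl : ∀ m a, r m a a
  symm : ∀ m a b, r m a b → r m b a
  trans : ∀ m a b c, r m a b → r m b c → r m a c
  anti : ∀ m a b, r (m + 1) a b → r m a b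
  sep : ∀ a b, (∀ m, r m a b) → a = b
  inv : ∀ π ∈ G, ∀ m a b, r m a b → r m (π a) (π b)

open Classical in
/-- `2 ^ (-m)` for the least `m` where `p` fails, and `0` if there is none -/
noncomputable def ud (p : ℕ → Prop) : ℝ :=
  if h : ∃ m, ¬ p m then (1 / 2 : ℝ) ^ (Nat.find h) else 0

/-- the ultrametric -/
noncomputable def udist (r : ℕ → A → A → Prop) (a b : A) : ℝ := ud fun m => r m a b

/-- the sets that are open in the ultrametric topology -/
def Op (r : ℕ → A → A → Prop) (S : Set A) : Prop := ∀ a ∈ S, ∃ m, ∀ b, r m a b → b ∈ S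

namespace Unif

variable {G : Subgroup (Equiv.Perm A)} {r : ℕ → A → A → Prop} (h : Unif G r)

include h

theorem anti' {m n : ℕ} (hmn : m ≤ n) {a b : A} (hr : r n a b) : r m a b := by
  induction n, hmn using Nat.le_induction with
  | base => exact hr
  | succ n _ ih => exact ih (h.anti _ _ _ hr)

theorem inv_iff {π : Equiv.Perm A} (hπ : π ∈ G) {m : ℕ} {a b : A} :
    r m (π a) (π b) ↔ r m a b := by
  constructor
  · intro hr
    have := h.inv π⁻¹ (G.inv_mem hπ) m _ _ hr
    simpa using this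
  · exact h.inv π hπ m a b

theorem rel_iff {m : ℕ} {a b : A} : r m a b ↔ udist r a b < (1 / 2 : ℝ) ^ m := by
  classical
  unfold udist ud
  constructor
  · intro hr
    split_ifs with hex
    · apply pow_lt_pow_right_of_lt_one₀ (by norm_num) (by norm_num)
      by_contra hcon
      push Not at hcon
      exact Nat.find_spec hex (h.anti' hcon hr)
    · positivity
  · intro hr
    split_ifs at hr with hex
    · by_contra hcon
      have h1 := Nat.find_min' hex hcon
      have h2 : (1 / 2 : ℝ) ^ m ≤ (1 / 2) ^ (Nat.find hex) :=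
        pow_le_pow_of_le_one (by norm_num) (by norm_num) h1
      linarith
    · push Not at hex
      exact hex m

theorem udist_eq_zero {a b : A} : udist r a b = 0 ↔ a = b := by
  constructor
  · intro hd
    apply h.sep
    intro m
    rw [h.rel_iff, hd]
    positivity
  · rintro rfl
    unfold udist ud
    rw [dif_neg]
    push Not
    exact fun m => h.refl m a

omit h in
theorem udist_nonneg (a b : A) : 0 ≤ udist r a b := by
  unfold udist ud
  split_ifs
  · positivity
  · exact le_rfl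

theorem udist_comm (a b : A) : udist r a b = udist r b a := by
  have : (fun m => r m a b) = fun m => r m b a :=
    funext fun m => propext ⟨h.symm m a b, h.symm m b a⟩
  unfold udist
  rw [this]

theorem udist_triangle (a b c : A) : udist r a c ≤ udist r a b + udist r b c := by
  classical
  by_cases hex : ∃ m, ¬ r m a c
  · have h1 : udist r a c = (1 / 2 : ℝ) ^ (Nat.find hex) := by
      unfold udist ud; rw [dif_pos hex]
    have h2 := Nat.find_spec hex
    by_cases h3 : r (Nat.find hex) a b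
    · have h4 : ¬ r (Nat.find hex) b c := fun h4 => h2 (h.trans _ _ _ _ h3 h4)
      rw [h.rel_iff] at h4
      have := udist_nonneg (r := r) a b
      linarith
    · rw [h.rel_iff] at h3
      have := udist_nonneg (r := r) b c
      linarith
  · have h1 : udist r a c = 0 := by
      unfold udist ud; rw [dif_neg hex]
    have := udist_nonneg (r := r) a b
    have := udist_nonneg (r := r) b c
    linarith

theorem udist_inv {π : Equiv.Perm A} (hπ : π ∈ G) (a b : A) :
    udist r (π a) (π b) = udist r a b := by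
  have : (fun m => r m (π a) (π b)) = fun m => r m a b := funext fun m => propext (h.inv_iff hπ)
  unfold udist
  rw [this]

theorem op_inter {S T : Set A} (hS : Op r S) (hT : Op r T) : Op r (S ∩ T) := by
  rintro a ⟨ha, ha'⟩
  obtain ⟨m, hm⟩ := hS a ha
  obtain ⟨n, hn⟩ := hT a ha'
  exact ⟨max m n, fun b hb => ⟨hm b (h.anti' (le_max_left _ _) hb),
    hn b (h.anti' (le_max_right _ _) hb)⟩⟩

theorem op_image {S : Set A} (hS : Op r S) {π : Equiv.Perm A} (hπ : π ∈ G) : Op r (π '' S) := by
  rintro _ ⟨a, ha, rfl⟩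
  obtain ⟨m, hm⟩ := hS a ha
  refine ⟨m, fun b hb => ⟨π⁻¹ b, hm _ ?_, by simp⟩⟩
  rw [← h.inv_iff hπ]
  simpa using hb

end Unif

variable {G : Subgroup (Equiv.Perm A)}

namespace NM

/-- the atoms in a set of the model -/
def pts (x : NM G) : Set A := {a | mem (atomN a) x}

theorem mem_pts {x : NM G} {a : A} : a ∈ pts x ↔ mem (atomN a) x := Iff.rfl

theorem pts_act (π : G) (x : NM G) : pts (act π x) = π.1 '' pts x := by
  ext a
  rw [mem_pts, mem_act]
  constructor
  · intro h
    exact ⟨π.1⁻¹ a, h, by simp⟩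
  · rintro ⟨b, hb, rfl⟩
    have : (act π⁻¹ (atomN (π.1 b)) : NM G) = atomN b := by
      rw [act_atomN]; simp
    rw [this]; exact hb

variable (G) in
/-- the set of all atoms -/
noncomputable def univN : NM G := Classical.choose (permModel G).atoms_set

theorem not_atom_univN : ¬ atom (univN G) := (Classical.choose_spec (permModel G).atoms_set).1

theorem mem_univN {x : NM G} : mem x (univN G) ↔ atom x :=
  (Classical.choose_spec (permModel G).atoms_set).2 x

@[simp] theorem act_univN (π : G) : act π (univN G) = univN G := by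
  apply ext (by simpa using not_atom_univN) not_atom_univN
  intro z
  rw [mem_act, mem_univN, mem_univN, atom_act]

theorem small_subsets (x : NM G) :
    Small.{0} {y : NM G | ¬ atom y ∧ ∀ z, mem z y → mem z x} := by
  obtain ⟨s, -, hs⟩ := (permModel G).power x
  have h1 := small_elems s
  exact small_sub (fun y hy => (hs y).2 hy) h1

/-- a subset of the set of all atoms -/
def IsPts (x : NM G) : Prop := ¬ atom x ∧ ∀ z, mem z x → mem z (univN G)

theorem IsPts.mem_iff {x : NM G} (hx : IsPts x) {z : NM G} :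
    mem z x ↔ ∃ a ∈ pts x, z = atomN a := by
  constructor
  · intro hz
    obtain ⟨a, rfl⟩ := exists_atomN (mem_univN.1 (hx.2 z hz))
    exact ⟨a, hz, rfl⟩
  · rintro ⟨a, ha, rfl⟩
    exact ha

theorem IsPts.eq {x y : NM G} (hx : IsPts x) (hy : IsPts y) (h : pts x = pts y) : x = y := by
  apply ext hx.1 hy.1
  intro z
  rw [hx.mem_iff, hy.mem_iff, h]

theorem IsPts.act {x : NM G} (hx : IsPts x) (π : G) : IsPts (act π x) := by
  refine ⟨by simpa using hx.1, fun z hz => ?_⟩
  rw [mem_act] at hz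
  have := hx.2 _ hz
  rw [mem_univN, atom_act] at this
  rwa [mem_univN]

theorem exists_of_pts (S : Set A) (E : Finset A)
    (h : ∀ π : G, (∀ a ∈ E, π.1 a = a) → ∀ a ∈ S, π.1 a ∈ S) :
    ∃ s : NM G, IsPts s ∧ pts s = S := by
  obtain ⟨s, hs, hs'⟩ := exists_set (G := G) (fun z => ∃ a ∈ S, z = atomN a) (by
    have : ({z | ∃ a ∈ S, z = atomN a} : Set (NM G)) = Set.range fun a : S => atomN a.1 := by
      ext z
      constructor
      · rintro ⟨a, ha, rfl⟩; exact ⟨⟨a, ha⟩, rfl⟩
      · rintro ⟨a, rfl⟩; exact ⟨a.1, a.2, rfl⟩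
    rw [this]; exact small_range _) E (by
    rintro π hf z ⟨a, ha, rfl⟩
    exact ⟨π.1 a, h π hf a ha, rfl⟩)
  refine ⟨s, ⟨hs, fun z hz => ?_⟩, ?_⟩
  · obtain ⟨a, -, rfl⟩ := (hs' z).1 hz
    exact mem_univN.2 (atom_atomN a)
  · ext a
    rw [mem_pts, hs']
    constructor
    · rintro ⟨b, hb, hab⟩
      rwa [atomN_injective hab]
    · intro ha
      exact ⟨a, ha, rfl⟩

theorem supp_of_pts {x : NM G} (hx : IsPts x) {E : Finset A}
    (h : ∀ π : G, (∀ a ∈ E, π.1 a = a) → ∀ a ∈ pts x, π.1 a ∈ pts x) : supp E x := by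
  intro π hf
  apply (hx.act π).eq hx
  rw [pts_act]
  apply Set.Subset.antisymm
  · rintro _ ⟨a, ha, rfl⟩
    exact h π hf a ha
  · intro a ha
    refine ⟨π.1⁻¹ a, ?_, by simp⟩
    have := h π⁻¹ (fun b hb => by
      change π.1⁻¹ b = b
      rw [Equiv.Perm.inv_eq_iff_eq, hf b hb]) a ha
    exact this

theorem pts_of_supp {x : NM G} {E : Finset A} (h : supp E x) {π : G}
    (hf : ∀ a ∈ E, π.1 a = a) {a : A} (ha : a ∈ pts x) : π.1 a ∈ pts x := by
  have := pts_act π x
  rw [h π hf] at this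
  rw [this]
  exact ⟨a, ha, rfl⟩

end NM

open NM

section

variable {r : ℕ → A → A → Prop} (h : Unif G r)

include h in
theorem exists_tau : ∃ t : NM G, ¬ atom t ∧ ∀ U, mem U t ↔ (IsPts U ∧ Op r (pts U)) := by
  apply exists_set _ _ ∅
  · rintro π - U ⟨hU, hU'⟩
    refine ⟨hU.act π, ?_⟩
    rw [pts_act]
    exact h.op_image hU' π.2
  · exact small_sub (fun U hU => hU.1) (small_subsets (univN G))

/-- the topology -/
noncomputable def tau : NM G := Classical.choose (exists_tau h)

theorem not_atom_tau : ¬ atom (tau h) := (Classical.choose_spec (exists_tau h)).1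

theorem mem_tau {U : NM G} : mem U (tau h) ↔ (IsPts U ∧ Op r (pts U)) :=
  (Classical.choose_spec (exists_tau h)).2 U

theorem isTopology_tau : (permModel G).IsTopology (univN G) (tau h) := by
  refine ⟨not_atom_univN, not_atom_tau h, fun U hU => ((mem_tau h).1 hU).1, ?_, ?_, ?_, ?_⟩
  · refine (mem_tau h).2 ⟨⟨not_atom_univN, fun z hz => hz⟩, fun a _ => ⟨0, fun b _ => ?_⟩⟩
    exact mem_univN.2 (atom_atomN b)
  · intro U hU hz
    exact (mem_tau h).2 ⟨⟨hU, fun z hz' => absurd hz' (hz z)⟩, fun a ha => absurd ha (hz (atomN a))⟩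
  · intro U W hU hW S hS hz
    obtain ⟨hU1, hU2⟩ := (mem_tau h).1 hU
    obtain ⟨hW1, hW2⟩ := (mem_tau h).1 hW
    refine (mem_tau h).2 ⟨⟨hS, fun z hz' => hU1.2 z ((hz z).1 hz').1⟩, ?_⟩
    have : pts S = pts U ∩ pts W := by
      ext a; exact hz (atomN a)
    rw [this]
    exact h.op_inter hU2 hW2
  · intro F hF S hS hz
    refine (mem_tau h).2 ⟨⟨hS, fun z hz' => ?_⟩, fun a ha => ?_⟩
    · obtain ⟨U, hUF, hzU⟩ := (hz z).1 hz'
      exact ((mem_tau h).1 (hF.2 U hUF)).1.2 z hzU
    · obtain ⟨U, hUF, hzU⟩ := (hz (atomN a)).1 ha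
      obtain ⟨m, hm⟩ := ((mem_tau h).1 (hF.2 U hUF)).2 a hzU
      exact ⟨m, fun b hb => (hz (atomN b)).2 ⟨U, hUF, hm b hb⟩⟩

theorem isClosedIn_iff {F : NM G} :
    (permModel G).IsClosedIn (univN G) (tau h) F ↔ (IsPts F ∧ Op r (pts F)ᶜ) := by
  constructor
  · rintro ⟨hF, U, hU, hz⟩
    refine ⟨hF, ?_⟩
    have : (pts F)ᶜ = pts U := by
      ext a
      refine Iff.trans ?_ (hz (atomN a)).symm
      constructor
      · intro ha
        exact ⟨mem_univN.2 (atom_atomN a), ha⟩
      · exact fun ha => ha.2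
    rw [this]
    exact ((mem_tau h).1 hU).2
  · rintro ⟨hF, hF'⟩
    obtain ⟨E, hE⟩ := exists_supp F
    obtain ⟨U, hU, hU'⟩ := exists_of_pts (G := G) (pts F)ᶜ E (by
      intro π hf a ha ha'
      apply ha
      have h1 : (∀ a ∈ E, (π⁻¹ : G).1 a = a) := fun b hb => by
        change π.1⁻¹ b = b
        rw [Equiv.Perm.inv_eq_iff_eq, hf b hb]
      have := pts_of_supp hE h1 ha'
      simpa using this)
    refine ⟨hF, U, (mem_tau h).2 ⟨hU, by rw [hU']; exact hF'⟩, fun z => ?_⟩
    change mem z U ↔ _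
    rw [hU.mem_iff, hU']
    constructor
    · rintro ⟨a, ha, rfl⟩
      exact ⟨mem_univN.2 (atom_atomN a), ha⟩
    · rintro ⟨hz, hz'⟩
      obtain ⟨a, rfl⟩ := exists_atomN (mem_univN.1 hz)
      exact ⟨a, hz', rfl⟩

/-- compactness for increasing sequences of sets that are open and have a common support -/
theorem compact_seq {K : NM G} (hK : (permModel G).IsCompactIn (univN G) (tau h) K)
    (W : ℕ → Set A) (hmono : Monotone W) (hop : ∀ j, Op r (W j)) (E : Finset A)
    (hE : ∀ π : G, (∀ a ∈ E, π.1 a = a) → ∀ j, ∀ a ∈ W j, π.1 a ∈ W j)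
    (hcov : ∀ a ∈ pts K, ∃ j, a ∈ W j) : ∃ j, pts K ⊆ W j := by
  classical
  choose w hw hw' using fun j => exists_of_pts (G := G) (W j) E fun π hf a ha => hE π hf j a ha
  have hsupp : ∀ j, supp E (w j) := fun j => supp_of_pts (hw j) (by
    intro π hf a ha
    rw [hw' j] at ha ⊢
    exact hE π hf j a ha)
  obtain ⟨C, hC, hC'⟩ := exists_set (G := G) (fun z => ∃ j, z = w j) (by
    have : ({z | ∃ j, z = w j} : Set (NM G)) = Set.range w := by
      ext z; simp [eq_comm]
    rw [this]; exact small_range _) E (by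
    rintro π hf z ⟨j, rfl⟩
    exact ⟨j, hsupp j π hf⟩)
  obtain ⟨D, hDC, hD, hD'⟩ := hK.2 C ⟨hC, fun z hz => by
      obtain ⟨j, rfl⟩ := (hC' z).1 hz
      exact (mem_tau h).2 ⟨hw j, by rw [hw' j]; exact hop j⟩⟩ (by
    intro z hz
    obtain ⟨a, ha, rfl⟩ := (IsPts.mem_iff (x := K) hK.1).1 hz
    obtain ⟨j, hj⟩ := hcov a ha
    refine ⟨w j, (hC' _).2 ⟨j, rfl⟩, ?_⟩
    rw [← hw' j] at hj
    exact hj)
  have hDfin : Set.Finite {z | mem z D} := hD.2
  choose idx hidx using fun z : {z | mem z D} => (hC' z.1).1 (hDC.2 z.1 z.2)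
  have : Finite {z | mem z D} := hDfin
  have hb : (Set.range idx).Finite := Set.finite_range idx
  obtain ⟨J, hJ⟩ := hb.bddAbove
  refine ⟨J, fun a ha => ?_⟩
  obtain ⟨U, hUD, haU⟩ := hD' (atomN a) ha
  have h1 := hidx ⟨U, hUD⟩
  have h2 : idx ⟨U, hUD⟩ ≤ J := hJ ⟨_, rfl⟩
  apply hmono h2
  rw [← hw' (idx ⟨U, hUD⟩), ← h1]
  exact haU

theorem isRealFun_of {d : NM G → NM G → ℝ}
    (hd : ∀ π : G, ∀ x y, atom x → atom y → d (act π x) (act π y) = d x y) :
    (permModel G).IsRealFun (univN G) d := by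
  choose q hq using fun x y : NM G => opair_exists x y
  obtain ⟨g, -, hg⟩ := exists_set (G := G)
    (fun p => ∃ (x y : NM G) (n : ℕ), mem x (univN G) ∧ mem y (univN G) ∧
      p = q (q x y) (nat n) ∧ (ZFAModel.rat n : ℝ) < d x y) (by
      have hs := small_elems (univN G)
      have : Small.{0} (Set.range fun t : {x | mem x (univN G)} × {x | mem x (univN G)} × ℕ =>
          q (q t.1.1 t.2.1.1) (nat t.2.2)) := small_range _
      refine small_sub ?_ this
      rintro p ⟨x, y, n, hx, hy, rfl, -⟩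
      exact ⟨(⟨x, hx⟩, ⟨y, hy⟩, n), rfl⟩) ∅ (by
      rintro π - p ⟨x, y, n, hx, hy, rfl, hlt⟩
      refine ⟨act π x, act π y, n, ?_, ?_, ?_, ?_⟩
      · rwa [mem_univN, atom_act, ← mem_univN]
      · rwa [mem_univN, atom_act, ← mem_univN]
      · have h1 := opair_act π (hq x y)
        have h2 := opair_act π (hq (q x y) (nat n))
        rw [act_nat] at h2
        rw [opair_unique h1 (hq (act π x) (act π y))] at h2
        exact opair_unique h2 (hq _ _)
      · rwa [hd π x y (mem_univN.1 hx) (mem_univN.1 hy)])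
  refine ⟨g, fun p => (hg p).trans ?_⟩
  constructor
  · rintro ⟨x, y, n, hx, hy, rfl, hlt⟩
    exact ⟨x, y, q x y, n, nat n, hx, hy, hq _ _, isNat_iff.2 rfl, hq _ _, hlt⟩
  · rintro ⟨x, y, q', n, m, hx, hy, hq', hm, hp, hlt⟩
    rw [isNat_iff] at hm
    subst hm
    obtain rfl := opair_unique hq' (hq x y)
    exact ⟨x, y, n, hx, hy, opair_unique hp (hq _ _), hlt⟩

variable [Nonempty A]

/-- the metric of the model -/
noncomputable def dN (r : ℕ → A → A → Prop) (x y : NM G) : ℝ :=
  udist r (Function.invFun atomN x) (Function.invFun atomN y)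

@[simp] theorem dN_atomN (a b : A) : dN (G := G) r (atomN a) (atomN b) = udist r a b := by
  unfold dN
  rw [Function.leftInverse_invFun atomN_injective a, Function.leftInverse_invFun atomN_injective b]

include h in
theorem isMetric_dN : (permModel G).IsMetric (univN G) (dN r) := by
  refine ⟨isRealFun_of ?_, ?_, ?_, ?_⟩
  · intro π x y hx hy
    obtain ⟨a, rfl⟩ := exists_atomN hx
    obtain ⟨b, rfl⟩ := exists_atomN hy
    rw [act_atomN, act_atomN, dN_atomN, dN_atomN, h.udist_inv π.2]
  · intro x y hx hy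
    obtain ⟨a, rfl⟩ := exists_atomN (mem_univN.1 hx)
    obtain ⟨b, rfl⟩ := exists_atomN (mem_univN.1 hy)
    rw [dN_atomN, h.udist_eq_zero, atomN_injective.eq_iff]
  · intro x y hx hy
    obtain ⟨a, rfl⟩ := exists_atomN (mem_univN.1 hx)
    obtain ⟨b, rfl⟩ := exists_atomN (mem_univN.1 hy)
    rw [dN_atomN, dN_atomN, h.udist_comm]
  · intro x y z hx hy hz
    obtain ⟨a, rfl⟩ := exists_atomN (mem_univN.1 hx)
    obtain ⟨b, rfl⟩ := exists_atomN (mem_univN.1 hy)
    obtain ⟨c, rfl⟩ := exists_atomN (mem_univN.1 hz)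
    rw [dN_atomN, dN_atomN, dN_atomN]
    exact h.udist_triangle a b c

theorem induces_dN : (permModel G).Induces (univN G) (tau h) (dN r) := by
  intro U
  refine (mem_tau h).trans (and_congr_right fun hU => ?_)
  constructor
  · intro hop x hx
    obtain ⟨a, ha, rfl⟩ := hU.mem_iff.1 hx
    obtain ⟨m, hm⟩ := hop a ha
    refine ⟨(1 / 2) ^ m, by positivity, fun y hy hd => ?_⟩
    obtain ⟨b, rfl⟩ := exists_atomN (mem_univN.1 hy)
    rw [dN_atomN, ← h.rel_iff] at hd
    exact hm b hd
  · intro hop a ha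
    obtain ⟨ε, hε, hy⟩ := hop (atomN a) ha
    obtain ⟨m, hm⟩ := exists_pow_lt_of_lt_one hε (show (1 / 2 : ℝ) < 1 by norm_num)
    refine ⟨m, fun b hb => hy (atomN b) (mem_univN.2 (atom_atomN b)) ?_⟩
    rw [dN_atomN]
    rw [h.rel_iff] at hb
    linarith

end

end Pool.Agent.Helper91.ZFA
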